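import Pool.Agent.H84.Sym.Defs2
import Pool.Agent.H85.Sym.G2a
import Pool.Agent.H29.Sym.C


/-!
# SYM2, module P6: Poincare inequality from the sections and the fixed space
-/

set_option autoImplicit false
set_option linter.unusedSectionVars false

open MeasureTheory Set Filter Topology
open scoped ContDiff

namespace Pool.Agent.H84.Sym

open Pool.Agent.H84

universe v

variable {E : Type v} [NormedAddCommGroup E] [InnerProductSpace ℝ E]
    [FiniteDimensional ℝ E] [MeasurableSpace E] [BorelSpace E]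

namespace P6

/-! ### Scaling of measures -/

theorem mu_add_const (U : E → ℝ) (hU : Continuous U) (c : ℝ) :
    mu (fun x => U x + c) = ENNReal.ofReal (Real.exp (-c)) • mu U := by
  unfold mu
  rw [← withDensity_smul _ (by fun_prop)]
  congr 1
  ext x
  rw [Pi.smul_apply, smul_eq_mul, ← ENNReal.ofReal_mul (Real.exp_pos _).le, ← Real.exp_add]
  congr 2
  ring

theorem gpc_smul {μ : Measure E} {L c : ℝ} (hc : 0 < c) (h : GPC μ L) :
    GPC (ENNReal.ofReal c • μ) L := by
  intro f hf hs
  have h1 := h f hf hs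
  have h2 : (ENNReal.ofReal c • μ).real univ = c * μ.real univ := by
    rw [measureReal_ennreal_smul_apply, ENNReal.toReal_ofReal hc.le]
  rw [h2, integral_smul_measure, integral_smul_measure, integral_smul_measure,
    ENNReal.toReal_ofReal hc.le]
  simp only [smul_eq_mul]
  have h3 : 0 ≤ c ^ 2 := by positivity
  have h4 := mul_le_mul_of_nonneg_left h1 h3
  calc _ = c ^ 2 * (μ.real univ * (∫ x, f x ^ 2 ∂μ) - (∫ x, f x ∂μ) ^ 2) := by ring
    _ ≤ _ := h4
    _ = _ := by ring

theorem gpc_add_const {U : E → ℝ} (hU : Continuous U) {L : ℝ} (h : GPC (mu U) L) (c : ℝ) :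
    GPC (mu (fun x => U x + c)) L := by
  rw [mu_add_const U hU c]
  exact gpc_smul (Real.exp_pos _) h

theorem gpc_of_add_const {U : E → ℝ} (hU : Continuous U) {L : ℝ} (c : ℝ)
    (h : GPC (mu (fun x => U x + c)) L) : GPC (mu U) L := by
  have h1 := gpc_add_const (U := fun x => U x + c) (by fun_prop) h (-c)
  simpa [add_assoc] using h1

theorem pot_add_const {U : E → ℝ} {t C : ℝ} (hU : Pot U t C) (c : ℝ) :
    Pot (fun x => U x + c) t C := by
  have h1 : fderiv ℝ (fun x => U x + c) = fderiv ℝ U := by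
    ext1 x
    rw [fderiv_add_const]
  refine ⟨hU.smooth.add contDiff_const, hU.pos, ?_, ?_⟩
  · intro x v
    rw [h1]
    exact hU.hess x v
  · intro x
    rw [h1]
    exact hU.grad x

theorem gpc_mono {μ : Measure E} {L L' : ℝ} (h : GPC μ L) (hle : L ≤ L') : GPC μ L' := by
  intro f hf hs
  refine (h f hf hs).trans (mul_le_mul_of_nonneg_right hle ?_)
  exact mul_nonneg measureReal_nonneg (integral_nonneg fun x => sq_nonneg _)

/-! ### Conditional means -/

section cond

variable (S : Submodule ℝ E) {U : E → ℝ} {t C : ℝ}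

theorem contU (hU : Pot U t C) : Continuous U := hU.smooth.continuous

theorem sec_pot (hU : Pot U t C) (z : E) : Pot (sec S U z) t (C * (1 + ‖z‖)) :=
  G2aux.pot_VV hU S z

theorem pint_eq (hU : Continuous U) (F : E → ℝ) (z : Sᗮ) :
    pint S U F z = ∫ x : S, F ((x : E) + (z : E)) ∂(mu (sec S U z)) := by
  have h1 : Continuous (sec S U z) := by
    unfold sec
    fun_prop
  rw [integral_mu h1]
  rfl

theorem gr_one : Gr (fun _ : E => (1:ℝ)) := ⟨1, 0, fun x => by simp⟩

theorem gr_cs {F : E → ℝ} (hF : Continuous F) (hc : HasCompactSupport F) : Gr F := by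
  obtain ⟨M, hM⟩ := hF.bounded_above_of_compact_support hc
  exact ⟨M, 0, fun x => by simpa using hM x⟩

theorem rho_pos (hU : Pot U t C) (z : Sᗮ) : 0 < pint S U (fun _ => 1) z := by
  have h0 := sec_pot S hU (z : E)
  have h1 := mu_univ_pos h0.smooth.continuous (isFinite_mu h0)
  rw [pint_eq S hU.smooth.continuous]
  simpa using h1

/-- The normalised potential of a section. -/
noncomputable def nsec (S : Submodule ℝ E) (U : E → ℝ) (z : Sᗮ) (x : S) : ℝ :=
  sec S U z x + Real.log (pint S U (fun _ => 1) z)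

theorem nsec_pot (hU : Pot U t C) (z : Sᗮ) : Pot (nsec S U z) t (C * (1 + ‖(z : E)‖)) :=
  pot_add_const (sec_pot S hU z) _

theorem int_nsec (hU : Pot U t C) (z : Sᗮ) (F : E → ℝ) :
    ∫ x : S, F ((x : E) + (z : E)) ∂(mu (nsec S U z)) = cav S U F z := by
  have h1 := mu_add_const (sec S U z) (sec_pot S hU (z : E)).smooth.continuous
    (Real.log (pint S U (fun _ => 1) z))
  have h2 : mu (nsec S U z) = ENNReal.ofReal (Real.exp (-Real.log (pint S U (fun _ => 1) z))) •
      mu (sec S U z) := h1
  rw [h2, integral_smul_measure, ENNReal.toReal_ofReal (Real.exp_pos _).le, Real.exp_neg,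
    Real.exp_log (rho_pos S hU z), ← pint_eq S hU.smooth.continuous, smul_eq_mul]
  unfold cav
  ring

theorem prob_nsec (hU : Pot U t C) (z : Sᗮ) : IsProbabilityMeasure (mu (nsec S U z)) := by
  have h1 := int_nsec S hU z (fun _ => 1)
  have h2 : cav S U (fun _ => 1) z = 1 := div_self (rho_pos S hU z).ne'
  rw [h2] at h1
  simp only [integral_const, smul_eq_mul, mul_one] at h1
  refine ⟨?_⟩
  exact (ENNReal.toReal_eq_one_iff _).1 h1

theorem exp_neg_mg (hU : Pot U t C) (z : Sᗮ) :
    Real.exp (-mg S U z) = pint S U (fun _ => 1) z := by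
  unfold mg
  rw [neg_neg, Real.exp_log (rho_pos S hU z)]

theorem int_mu_eq (hU : Pot U t C) (hWc : Continuous (mg S U)) {F : E → ℝ} (hF : Continuous F)
    (hg : Gr F) : ∫ x, F x ∂(mu U) = ∫ z, cav S U F z ∂(mu (mg S U)) ∧
      Integrable (cav S U F) (mu (mg S U)) := by
  obtain ⟨A, B, hAB⟩ := hg
  have hUc := hU.smooth.continuous
  have h1 : Integrable F (mu U) := integrable_exp_growth hU hF hAB
  have h2 : Integrable (fun x => F x * Real.exp (-U x)) := (integrable_mu_iff hUc).1 h1
  obtain ⟨h3, h4⟩ := G2aux.integral_decomp S h2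
  have h5 : (fun z : Sᗮ => cav S U F z * Real.exp (-mg S U z)) = fun z => pint S U F z := by
    ext z
    rw [exp_neg_mg S hU, cav, div_mul_cancel₀ _ (rho_pos S hU z).ne']
  refine ⟨?_, ?_⟩
  · rw [integral_mu hUc, h3, integral_mu hWc, h5]
    rfl
  · rw [integrable_mu_iff hWc, h5]
    exact h4

end cond

end P6

end Pool.Agent.H84.Sym
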