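import Pool.Agent.H84.Sym.F1
import Pool.Agent.H91.Sym.A1
import Pool.Agent.H91.Sym.A2

/-!
# SYM, module F2: the core inequality
-/

set_option autoImplicit false
set_option linter.unusedSectionVars false

open MeasureTheory Set Filter Topology
open scoped ContDiff

namespace Pool.Agent.H84.Sym

variable {E : Type*} [NormedAddCommGroup E] [InnerProductSpace ℝ E]
    [FiniteDimensional ℝ E] [MeasurableSpace E] [BorelSpace E]
variable {ι : Type*} [Fintype ι]

namespace F

section meas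

variable {μ : Measure E} [IsProbabilityMeasure μ]

theorem int_cs {F : E → ℝ} (hF : Continuous F) (hc : HasCompactSupport F) : Integrable F μ :=
  hF.integrable_of_hasCompactSupport hc

/-- Jensen / Cauchy-Schwarz. -/
theorem sq_integral_le {g : E → ℝ} (hg : Integrable g μ) (hg2 : Integrable (fun x => g x ^ 2) μ) :
    (∫ x, g x ∂μ) ^ 2 ≤ ∫ x, g x ^ 2 ∂μ := by
  set m := ∫ x, g x ∂μ with hm
  have h1 : 0 ≤ ∫ x, (g x - m) ^ 2 ∂μ := integral_nonneg fun x => sq_nonneg _
  have h2 : ∫ x, (g x - m) ^ 2 ∂μ = (∫ x, g x ^ 2 ∂μ) - m ^ 2 := by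
    have h3 : ∀ x, (g x - m) ^ 2 = (g x ^ 2 - (2 * m) * g x) + m ^ 2 := fun x => by ring
    have h4 : Integrable (fun x => (2 * m) * g x) μ := hg.const_mul _
    have h5 : Integrable (fun x => g x ^ 2 - (2 * m) * g x) μ := hg2.sub h4
    simp only [h3]
    rw [integral_add h5 (integrable_const _), integral_sub hg2 h4, integral_const_mul, ← hm]
    simp
    ring
  linarith

end meas

section main

variable (b : OrthonormalBasis ι ℝ E) (I : Finset ι) {U : E → ℝ} {t C : ℝ} {f : E → ℝ}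

/-- Squared length of the second derivatives in the directions of `I`. -/
noncomputable def hs (f : E → ℝ) (x : E) : ℝ := ∑ i ∈ I, ‖fderiv ℝ (D (b i) f) x‖ ^ 2

theorem vs_le (f : E → ℝ) (x : E) : vs b I f x ≤ ‖fderiv ℝ f x‖ ^ 2 := by
  rw [norm_fderiv_sq b, vs]
  exact Finset.sum_le_univ_sum_of_nonneg fun i => sq_nonneg _

/-- The deficit. -/
noncomputable def yy (f : E → ℝ) (a δ : ℝ) (x : E) : ℝ :=
  ‖fderiv ℝ f x‖ ^ 2 + hs b I f x / a ^ 2 - ‖fderiv ℝ (ww b I f a δ) x‖ ^ 2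

theorem yy_ge {a δ : ℝ} (hf : Tst f) (ha : 0 < a) (hδ : 0 < δ) (x : E) :
    ∑ i, (ww b I f a δ x * D (b i) (uu b I f a δ) x) ^ 2 ≤ yy b I f a δ x := by
  have h1 : ∑ i, ((D (b i) (ww b I f a δ) x) ^ 2 +
      (ww b I f a δ x * D (b i) (uu b I f a δ) x) ^ 2) ≤
      ∑ i, ((D (b i) f x) ^ 2 + (∑ j ∈ I, (D (b i) (D (b j) f) x) ^ 2) / a ^ 2) :=
    Finset.sum_le_sum fun i _ => point_dir b I hf ha hδ (b i) x
  rw [Finset.sum_add_distrib, Finset.sum_add_distrib, ← Finset.sum_div, Finset.sum_comm,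
    ← norm_fderiv_sq b, ← norm_fderiv_sq b] at h1
  have h2 : ∑ j ∈ I, ∑ i, (D (b i) (D (b j) f) x) ^ 2 = hs b I f x := by
    unfold hs
    exact Finset.sum_congr rfl fun j _ => (norm_fderiv_sq b _ x).symm
  rw [h2] at h1
  unfold yy
  linarith

theorem yy_nonneg {a δ : ℝ} (hf : Tst f) (ha : 0 < a) (hδ : 0 < δ) (x : E) :
    0 ≤ yy b I f a δ x :=
  (Finset.sum_nonneg fun _ _ => sq_nonneg _).trans (yy_ge b I hf ha hδ x)

/-! #### pointwise bounds -/

theorem uw {a δ : ℝ} (hδ : 0 < δ) (x : E) : uu b I f a δ x * ww b I f a δ x = f x := by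
  have := ww_pos b I (f := f) (a := a) hδ x
  unfold uu
  field_simp

theorem cut_nonneg (f : E → ℝ) (a δ : ℝ) (x : E) : 0 ≤ cut b I f a δ x := sq_nonneg _

theorem cut_le_one (f : E → ℝ) (a δ : ℝ) (x : E) : cut b I f a δ x ≤ 1 := by
  unfold cut
  have h1 : eta b I f a δ x ≤ 1 := by
    unfold eta
    nlinarith [sq_nonneg (uu b I f a δ x)]
  have h2 : max (eta b I f a δ x) 0 ≤ 1 := max_le h1 zero_le_one
  have h3 : 0 ≤ max (eta b I f a δ x) 0 := le_max_right _ _
  nlinarith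

theorem p1 {a δ : ℝ} (hf : Tst f) (ha : 0 < a) (hδ : 0 < δ) (x : E) :
    -(f x * ∑ i, D (b i) f x * D (b i) (cut b I f a δ) x) ≤
      1 / 4 * (cut b I f a δ x * ‖fderiv ℝ f x‖ ^ 2) + 16 * yy b I f a δ x := by
  have hy := yy_ge b I hf ha hδ x
  rcases le_or_gt (eta b I f a δ x) 0 with h | h
  · have h1 : ∀ i, D (b i) (cut b I f a δ) x = 0 := by
      intro i
      rw [cut_D b I hf hδ, max_eq_right h]
      ring
    simp only [h1, mul_zero, Finset.sum_const_zero, neg_zero]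
    have h2 := cut_nonneg b I f a δ x
    have h3 := yy_nonneg b I hf ha hδ x
    positivity
  · have hu : uu b I f a δ x ^ 2 ≤ 1 / 2 := by
      unfold eta at h
      linarith
    have h1 : -(f x * ∑ i, D (b i) f x * D (b i) (cut b I f a δ) x) ≤
        ∑ i, (1 / 4 * (cut b I f a δ x * (D (b i) f x) ^ 2) +
          16 * (ww b I f a δ x * D (b i) (uu b I f a δ) x) ^ 2) := by
      rw [Finset.mul_sum, ← Finset.sum_neg_distrib]
      refine Finset.sum_le_sum fun i _ => ?_
      rw [cut_D b I hf hδ, eta_D b I hf hδ]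
      have hcut : cut b I f a δ x = (max (eta b I f a δ x) 0) ^ 2 := rfl
      rw [hcut]
      have hfu := uw b I (f := f) (a := a) hδ x
      set h' := max (eta b I f a δ x) 0
      set u := uu b I f a δ x
      set w := ww b I f a δ x
      set d := D (b i) (uu b I f a δ) x
      set g := D (b i) f x
      rw [← hfu]
      have h2 : -(u * w * (g * (2 * h' * (-4 * u * d)))) = 2 * (h' * g / 2) * (8 * u ^ 2 * (w * d)) := by
        ring
      rw [h2]
      have h3 := two_mul_le_add_sq (h' * g / 2) (8 * u ^ 2 * (w * d))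
      have h4 : (8 * u ^ 2 * (w * d)) ^ 2 ≤ 16 * (w * d) ^ 2 := by
        have h5 : (u ^ 2) ^ 2 ≤ 1 / 4 := by nlinarith [sq_nonneg u]
        calc (8 * u ^ 2 * (w * d)) ^ 2 = 64 * (u ^ 2) ^ 2 * (w * d) ^ 2 := by ring
          _ ≤ 64 * (1 / 4) * (w * d) ^ 2 := by gcongr
          _ = _ := by ring
      calc _ ≤ (h' * g / 2) ^ 2 + (8 * u ^ 2 * (w * d)) ^ 2 := h3
        _ ≤ (h' * g / 2) ^ 2 + 16 * (w * d) ^ 2 := by linarith
        _ = _ := by ring
    refine h1.trans ?_
    rw [Finset.sum_add_distrib, ← Finset.mul_sum, ← Finset.mul_sum, ← Finset.mul_sum,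
      ← norm_fderiv_sq b]
    linarith

theorem p2 {a δ : ℝ} (ha : 0 < a) (hδ : 0 < δ) (x : E) :
    f x ^ 2 * cut b I f a δ x ≤ 1 / a ^ 2 * (cut b I f a δ x * ‖fderiv ℝ f x‖ ^ 2) + δ ^ 2 := by
  have hc0 := cut_nonneg b I f a δ x
  have hc1 := cut_le_one b I f a δ x
  rcases le_or_gt (eta b I f a δ x) 0 with h | h
  · have h1 : cut b I f a δ x = 0 := by
      unfold cut
      rw [max_eq_right h]
      norm_num
    rw [h1]
    nlinarith [sq_nonneg δ]
  · have hu : uu b I f a δ x ^ 2 ≤ 1 / 2 := by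
      unfold eta at h
      linarith
    have h1 : f x ^ 2 = uu b I f a δ x ^ 2 * ww b I f a δ x ^ 2 := by
      rw [← uw b I (f := f) (a := a) hδ x]
      ring
    have h2 := ww_sq b I (f := f) (a := a) hδ x
    have h3 := vs_le b I f x
    have h4 : f x ^ 2 ≤ vs b I f x / a ^ 2 + δ ^ 2 := by
      nlinarith [sq_nonneg (ww b I f a δ x)]
    have h5 : vs b I f x / a ^ 2 ≤ ‖fderiv ℝ f x‖ ^ 2 / a ^ 2 := by gcongr
    calc f x ^ 2 * cut b I f a δ x ≤ (‖fderiv ℝ f x‖ ^ 2 / a ^ 2 + δ ^ 2) * cut b I f a δ x := by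
          gcongr
          linarith
      _ = 1 / a ^ 2 * (cut b I f a δ x * ‖fderiv ℝ f x‖ ^ 2) + δ ^ 2 * cut b I f a δ x := by ring
      _ ≤ _ := by nlinarith [sq_nonneg δ]

/-- The excess. -/
noncomputable def zz (f : E → ℝ) (a : ℝ) (x : E) : ℝ := max (vs b I f x - 4 * a ^ 2 * f x ^ 2) 0

theorem zz_nonneg (f : E → ℝ) (a : ℝ) (x : E) : 0 ≤ zz b I f a x := le_max_right _ _

theorem p3 {a δ : ℝ} (ha : 0 < a) (hδ : 0 < δ) (x : E) :
    zz b I f a x ≤ 25 / 9 * (cut b I f a δ x * ‖fderiv ℝ f x‖ ^ 2) := by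
  have hc0 := cut_nonneg b I f a δ x
  rcases le_or_gt (vs b I f x - 4 * a ^ 2 * f x ^ 2) 0 with h | h
  · unfold zz
    rw [max_eq_right h]
    positivity
  · unfold zz
    rw [max_eq_left h.le]
    have hw := ww_pos b I (f := f) (a := a) hδ x
    have h2 := ww_sq b I (f := f) (a := a) hδ x
    have h3 := vs_le b I f x
    have h4 : 4 * f x ^ 2 ≤ vs b I f x / a ^ 2 := by
      rw [le_div_iff₀ (by positivity)]
      linarith
    have h5 : 5 * f x ^ 2 ≤ ww b I f a δ x ^ 2 := by nlinarith [sq_nonneg δ]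
    have h6 : uu b I f a δ x ^ 2 ≤ 1 / 5 := by
      unfold uu
      rw [div_pow, div_le_iff₀ (by positivity)]
      linarith
    have h7 : 3 / 5 ≤ max (eta b I f a δ x) 0 := by
      refine le_max_of_le_left ?_
      unfold eta
      linarith
    have h8 : 9 / 25 ≤ cut b I f a δ x := by
      unfold cut
      nlinarith
    have h9 : 0 ≤ a ^ 2 * f x ^ 2 := by positivity
    have h10 : 0 ≤ ‖fderiv ℝ f x‖ ^ 2 := by positivity
    nlinarith

theorem p4 {a δ : ℝ} (ha : 0 < a) (hδ : 0 < δ) (x : E) :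
    ww b I f a δ x ≤ 3 * |f x| + Real.sqrt (zz b I f a x) / a + δ := by
  have hz := zz_nonneg b I f a x
  have h1 : 0 ≤ Real.sqrt (zz b I f a x) / a := by positivity
  have h2 := ww_sq b I (f := f) (a := a) hδ x
  have h3 : vs b I f x ≤ 4 * a ^ 2 * f x ^ 2 + zz b I f a x := by
    have : vs b I f x - 4 * a ^ 2 * f x ^ 2 ≤ zz b I f a x := le_max_left _ _
    linarith
  have h4 : vs b I f x / a ^ 2 ≤ 4 * f x ^ 2 + (Real.sqrt (zz b I f a x) / a) ^ 2 := by
    rw [div_pow, Real.sq_sqrt hz, div_le_iff₀ (by positivity), add_mul,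
      div_mul_cancel₀ _ (by positivity)]
    linarith
  have h5 : |f x| ^ 2 = f x ^ 2 := sq_abs _
  have h6 := abs_nonneg (f x)
  refine abs_le_of_sq_le_sq' ?_ (by positivity) |>.2
  rw [h2]
  nlinarith [mul_nonneg h6 h1, mul_nonneg h6 hδ.le, mul_nonneg h1 hδ.le]

/-! #### regularity and supports -/

theorem cont_nf {f : E → ℝ} (hf : ContDiff ℝ 1 f) : Continuous (fun x => ‖fderiv ℝ f x‖ ^ 2) :=
  ((hf.continuous_fderiv one_ne_zero).norm).pow 2

theorem cs_nf {f : E → ℝ} (hc : HasCompactSupport f) :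
    HasCompactSupport (fun x => ‖fderiv ℝ f x‖ ^ 2) := by
  have := (hc.fderiv (𝕜 := ℝ)).norm
  have h2 := this.comp_left (g := fun t : ℝ => t ^ 2) (by norm_num)
  exact h2

theorem cs_sq {f : E → ℝ} (hc : HasCompactSupport f) : HasCompactSupport (fun x => f x ^ 2) :=
  hc.comp_left (g := fun t : ℝ => t ^ 2) (by norm_num)

theorem cont_hs (hf : Tst f) : Continuous (hs b I f) := by
  unfold hs
  exact continuous_finsetSum _ fun i _ => cont_nf (tst_D hf (b i)).c1

theorem cs_sum {κ : Type*} (J : Finset κ) {F : κ → E → ℝ} (h : ∀ i ∈ J, HasCompactSupport (F i)) :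
    HasCompactSupport (fun x => ∑ i ∈ J, F i x) := by
  classical
  induction J using Finset.induction_on with
  | empty =>
    simp only [Finset.sum_empty]
    exact HasCompactSupport.zero
  | insert i J hi ih =>
    simp only [Finset.sum_insert hi]
    exact (h i (Finset.mem_insert_self _ _)).add
      (ih fun j hj => h j (Finset.mem_insert_of_mem hj))

theorem cs_hs (hf : Tst f) : HasCompactSupport (hs b I f) := by
  unfold hs
  exact cs_sum I fun i _ => cs_nf (tst_D hf (b i)).2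

theorem cs_vs (hf : Tst f) : HasCompactSupport (vs b I f) := by
  unfold vs
  exact cs_sum I fun i _ => cs_sq (tst_D hf (b i)).2

theorem cont_vs (hf : Tst f) : Continuous (vs b I f) := (contDiff_vs b I hf).continuous

theorem cs_zz (hf : Tst f) (a : ℝ) : HasCompactSupport (zz b I f a) := by
  have h1 : HasCompactSupport (fun x => vs b I f x - 4 * a ^ 2 * f x ^ 2) := by
    have h2 : HasCompactSupport (fun x => -(4 * a ^ 2) * f x ^ 2) := (cs_sq hf.2).mul_left
    have h3 := (cs_vs b I hf).add h2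
    have h4 : (fun x => vs b I f x - 4 * a ^ 2 * f x ^ 2) =
        vs b I f + fun x => -(4 * a ^ 2) * f x ^ 2 := by
      funext x
      simp only [Pi.add_apply]
      ring
    rw [h4]
    exact h3
  exact h1.comp_left (g := fun t : ℝ => max t 0) (by simp)

theorem cont_zz (hf : Tst f) (a : ℝ) : Continuous (zz b I f a) := by
  unfold zz
  have h1 := cont_vs b I hf
  have h2 := hf.cont
  fun_prop

/-- `w - δ` is a test function. -/
theorem tst_ww {a δ : ℝ} (hf : Tst f) (hδ : 0 < δ) : Tst (fun x => ww b I f a δ x - δ) := by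
  refine ⟨(contDiff_ww b I hf hδ).sub contDiff_const, ?_⟩
  have h1 : HasCompactSupport (fun x => f x ^ 2 + vs b I f x / a ^ 2) := by
    have h2 : HasCompactSupport (fun x => (1 / a ^ 2) * vs b I f x) := (cs_vs b I hf).mul_left
    have h3 := (cs_sq hf.2).add h2
    have h4 : (fun x => f x ^ 2 + vs b I f x / a ^ 2) =
        (fun x => f x ^ 2) + fun x => (1 / a ^ 2) * vs b I f x := by
      funext x
      simp only [Pi.add_apply]
      ring
    rw [h4]
    exact h3
  have h2 := h1.comp_left (g := fun t : ℝ => Real.sqrt (t + δ ^ 2) - δ) (by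
    rw [zero_add, Real.sqrt_sq hδ.le, sub_self])
  exact h2

end main


/-! #### arithmetic -/

theorem ar_E2 {HI V N P G lam ε J R : ℝ} (hlam : 0 < lam) (hPb : |P| ≤ ε * N)
    (hG : G = lam * N - P) (h11 : lam * (G - V) ≤ R) (h13 : HI + R ≤ J)
    (h2 : J ≤ ε ^ 2 * N - 2 * lam * P + lam ^ 2 * N) :
    HI ≤ lam * V + (ε ^ 2 + lam * ε) * N := by
  have h15 := (abs_le.1 hPb).1
  have h16 := mul_le_mul_of_nonneg_left h15 hlam.le
  subst hG
  nlinarith

theorem ar_E3 {Y G HI V N P W lam ε a δ w κ : ℝ} (hlam : 0 < lam) (ha : 0 < a)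
    (hPb : |P| ≤ ε * N) (hG : G = lam * N - P) (hκ : κ = ε + (ε ^ 2 + lam * ε) / a ^ 2)
    (E2 : HI ≤ lam * V + (ε ^ 2 + lam * ε) * N) (h1 : Y = G + HI / a ^ 2 - w)
    (h9 : lam * (N + V / a ^ 2 + δ ^ 2 - W ^ 2) ≤ w) : Y ≤ lam * W ^ 2 + κ * N := by
  have h12 : HI / a ^ 2 ≤ (lam * V + (ε ^ 2 + lam * ε) * N) / a ^ 2 := by gcongr
  have h13 := (abs_le.1 hPb).1
  have h14 : (lam * V + (ε ^ 2 + lam * ε) * N) / a ^ 2 =
      lam * (V / a ^ 2) + (ε ^ 2 + lam * ε) / a ^ 2 * N := by ring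
  rw [h14] at h12
  have h15 : 0 ≤ lam * δ ^ 2 := by positivity
  have h16 : lam * (N + V / a ^ 2 + δ ^ 2 - W ^ 2) =
      lam * N + lam * (V / a ^ 2) + lam * δ ^ 2 - lam * W ^ 2 := by ring
  have h17 : κ * N = ε * N + (ε ^ 2 + lam * ε) / a ^ 2 * N := by
    rw [hκ]
    ring
  rw [h1, hG, h17]
  linarith

theorem ar_E4 {X Y N A B Q lam a δ ε : ℝ} (hlam : 0 < lam) (ha : 0 < a)
    (hla : 712 * lam ≤ a ^ 2) (hX0 : 0 ≤ X) (h1 : A - lam * B = -(X + Q)) (h8 : |A| ≤ ε * N)
    (h9 : B ≤ 1 / a ^ 2 * X + δ ^ 2) (h11 : -Q ≤ 1 / 4 * X + 16 * Y) :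
    X ≤ 64 * Y + 4 * lam * δ ^ 2 + 4 * ε * N := by
  have h14 := (abs_le.1 h8).1
  have h15 : lam * (1 / a ^ 2 * X) ≤ 1 / 2 * X := by
    have h16 : lam * (1 / a ^ 2) ≤ 1 / 2 := by
      rw [mul_one_div, div_le_iff₀ (by positivity)]
      linarith
    calc lam * (1 / a ^ 2 * X) = lam * (1 / a ^ 2) * X := by ring
      _ ≤ _ := by gcongr
  have h17 : lam * B ≤ lam * (1 / a ^ 2 * X + δ ^ 2) := by gcongr
  linarith

theorem ar_E7 {Z X Y W M q N lam a δ ε κ : ℝ} (hlam : 0 < lam) (ha : 0 < a) (hδ : 0 < δ)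
    (hla : 712 * lam ≤ a ^ 2) (hZ0 : 0 ≤ Z) (hM0 : 0 ≤ M) (hW0 : 0 ≤ W) (hq0 : 0 ≤ q)
    (hN0 : 0 ≤ N) (hκ0 : 0 ≤ κ) (hε : 0 < ε)
    (E3 : Y ≤ lam * W ^ 2 + κ * N) (E4 : X ≤ 64 * Y + 4 * lam * δ ^ 2 + 4 * ε * N)
    (E5 : Z ≤ 25 / 9 * X) (hq2 : q ^ 2 ≤ Z) (E6 : W ≤ 3 * M + δ + q / a) :
    Z ≤ 711 * lam * (3 * M + δ) ^ 2 + 6 * ((64 * κ + 4 * ε) * N + 4 * lam * δ ^ 2) := by
  have E7 : W ^ 2 ≤ 2 * (3 * M + δ) ^ 2 + 2 * (Z / a ^ 2) := by
    have h1 : W ^ 2 ≤ (3 * M + δ + q / a) ^ 2 := by gcongr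
    have h2 : (3 * M + δ + q / a) ^ 2 ≤ 2 * (3 * M + δ) ^ 2 + 2 * (q / a) ^ 2 := by
      have h3 := sq_nonneg (3 * M + δ - q / a)
      have h4 : (3 * M + δ - q / a) ^ 2 + (3 * M + δ + q / a) ^ 2 =
        2 * (3 * M + δ) ^ 2 + 2 * (q / a) ^ 2 := by ring
      linarith
    have h3 : (q / a) ^ 2 ≤ Z / a ^ 2 := by
      rw [div_pow]
      gcongr
    linarith
  have h1 : lam * (Z / a ^ 2) ≤ 1 / 712 * Z := by
    have h2 : lam * (1 / a ^ 2) ≤ 1 / 712 := by
      rw [mul_one_div, div_le_iff₀ (by positivity)]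
      linarith
    calc lam * (Z / a ^ 2) = lam * (1 / a ^ 2) * Z := by ring
      _ ≤ _ := by gcongr
  have h2 : lam * W ^ 2 ≤ lam * (2 * (3 * M + δ) ^ 2 + 2 * (Z / a ^ 2)) := by gcongr
  have h2' : lam * (2 * (3 * M + δ) ^ 2 + 2 * (Z / a ^ 2)) =
      2 * (lam * (3 * M + δ) ^ 2) + 2 * (lam * (Z / a ^ 2)) := by ring
  have h3 : 0 ≤ lam * δ ^ 2 := by positivity
  have h4 : 0 ≤ κ * N := by positivity
  have h5 : 0 ≤ ε * N := by positivity
  have h6 : 0 ≤ lam * (3 * M + δ) ^ 2 := by positivity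
  have h7 : 711 * lam * (3 * M + δ) ^ 2 + 6 * ((64 * κ + 4 * ε) * N + 4 * lam * δ ^ 2) =
      711 * (lam * (3 * M + δ) ^ 2) + 384 * (κ * N) + 24 * (ε * N) + 24 * (lam * δ ^ 2) := by ring
  have h8 : 64 * Y + 4 * lam * δ ^ 2 + 4 * ε * N = 64 * Y + 4 * (lam * δ ^ 2) + 4 * (ε * N) := by
    ring
  rw [h7]
  rw [h8] at E4
  rw [h2'] at h2
  linarith

theorem ar_fin {Z M N lam a ε κ : ℝ} (hlam : 0 < lam) (ha : 0 < a) (hε : 0 < ε) (hε1 : ε ≤ 1)
    (hN0 : 0 ≤ N) (hκ : κ = ε + (ε ^ 2 + lam * ε) / a ^ 2)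
    (hlim : Z ≤ 711 * lam * (3 * M + 0) ^ 2 + 6 * ((64 * κ + 4 * ε) * N + 4 * lam * 0 ^ 2)) :
    Z ≤ 13000 * lam * M ^ 2 + 1500 * (1 + lam) * (1 + 1 / a ^ 2) * ε * N := by
  have h1 : κ ≤ ε * (1 + (1 + lam) / a ^ 2) := by
    rw [hκ]
    have h2 : ε ^ 2 ≤ ε := by nlinarith
    have h3 : (ε ^ 2 + lam * ε) / a ^ 2 ≤ (ε + lam * ε) / a ^ 2 := by gcongr
    have h4 : (ε + lam * ε) / a ^ 2 = ε * ((1 + lam) / a ^ 2) := by ring
    linarith
  have h2 : 384 * κ + 24 * ε ≤ 1500 * (1 + lam) * (1 + 1 / a ^ 2) * ε := by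
    have h3 : 0 ≤ 1 / a ^ 2 := by positivity
    have h4 : ε * (1 + (1 + lam) / a ^ 2) = ε + ε * (1 + lam) * (1 / a ^ 2) := by ring
    have h5 : 1500 * (1 + lam) * (1 + 1 / a ^ 2) * ε =
        1500 * (ε + ε * lam + ε * (1 + lam) * (1 / a ^ 2)) := by ring
    have h6 : 0 ≤ ε * lam := by positivity
    have h7 : 0 ≤ ε * (1 + lam) * (1 / a ^ 2) := by positivity
    rw [h5]
    linarith
  have h3 : (384 * κ + 24 * ε) * N ≤ 1500 * (1 + lam) * (1 + 1 / a ^ 2) * ε * N := by gcongr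
  have h4 : 0 ≤ lam * M ^ 2 := by positivity
  have h5 : 711 * lam * (3 * M + 0) ^ 2 + 6 * ((64 * κ + 4 * ε) * N + 4 * lam * 0 ^ 2) =
      6399 * (lam * M ^ 2) + (384 * κ + 24 * ε) * N := by ring
  rw [h5] at hlim
  linarith


end F

open F in
theorem core [DecidableEq ι] (b : OrthonormalBasis ι ℝ E) (I : Finset ι) {U : E → ℝ} {t C : ℝ}
    (hU : Pot U t C) [IsProbabilityMeasure (mu U)] {lam a ε : ℝ} (hlam : 0 < lam) (ha : 0 < a)
    (hla : 712 * lam ≤ a ^ 2) (hpc : GPC (mu U) (1 / lam)) {f : E → ℝ} (hf : Tst f)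
    (h0 : ∀ i ∉ I, ∫ x, D (b i) f x ∂(mu U) = 0) (hε : 0 < ε) (hε1 : ε ≤ 1)
    (hne : ∫ x, (LO b U f x + lam * f x) ^ 2 ∂(mu U) ≤ ε ^ 2 * ∫ x, f x ^ 2 ∂(mu U)) :
    ∫ x, max ((∑ i ∈ I, (D (b i) f x) ^ 2) - 4 * a ^ 2 * f x ^ 2) 0 ∂(mu U) ≤
      13000 * lam * (∫ x, |f x| ∂(mu U)) ^ 2
        + 1500 * (1 + lam) * (1 + 1 / a ^ 2) * ε * ∫ x, f x ^ 2 ∂(mu U) := by
  set μ := mu U with hμ
  set N := ∫ x, f x ^ 2 ∂μ with hN
  set M := ∫ x, |f x| ∂μ with hM
  set G := ∫ x, ‖fderiv ℝ f x‖ ^ 2 ∂μ with hG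
  set r : E → ℝ := fun x => LO b U f x + lam * f x with hr
  have hU1 : ContDiff ℝ 1 U := hU.smooth.of_le (by norm_num)
  have hf2 : ContDiff ℝ 2 f := by exact_mod_cast contDiff_infty.1 hf.1 2
  have hf3 : ContDiff ℝ 3 f := by exact_mod_cast contDiff_infty.1 hf.1 3
  have hfc : Continuous f := hf.cont
  -- continuity of `L f`
  have hLc : Continuous (LO b U f) := by
    unfold LO
    refine Continuous.sub ?_ ?_
    · exact continuous_finsetSum _ fun i _ => (tst_D (tst_D hf (b i)) (b i)).cont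
    · refine continuous_finsetSum _ fun i _ => Continuous.mul ?_ (tst_D hf (b i)).cont
      unfold D
      exact (hU1.continuous_fderiv one_ne_zero).clm_apply continuous_const
  have hLs : HasCompactSupport (LO b U f) := by
    unfold LO
    refine HasCompactSupport.sub ?_ ?_
    · exact cs_sum _ fun i _ => (tst_D (tst_D hf (b i)) (b i)).2
    · exact cs_sum _ fun i _ => ((tst_D hf (b i)).2).mul_left
  have hrc : Continuous r := hLc.add (continuous_const.mul hfc)
  have hrs : HasCompactSupport r := by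
    have h1 : HasCompactSupport (fun x => lam * f x) := hf.2.mul_left
    exact hLs.add h1
  have hN0 : 0 ≤ N := integral_nonneg fun x => sq_nonneg _
  -- the term `∫ r f`
  set P := ∫ x, r x * f x ∂μ with hP
  have hrf : Integrable (fun x => r x * f x) μ := int_cs (hrc.mul hfc) hf.2.mul_left
  have hr2 : Integrable (fun x => r x ^ 2) μ := int_cs (hrc.pow 2) (cs_sq hrs)
  have hf2i : Integrable (fun x => f x ^ 2) μ := int_cs (hfc.pow 2) (cs_sq hf.2)
  have amgm : ∀ (h : E → ℝ), Continuous h → (∀ x, |h x| ≤ |f x|) →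
      |∫ x, r x * h x ∂μ| ≤ ε * N := by
    intro h hh hhf
    have hsup : HasCompactSupport (fun x => r x * h x) := hrs.mul_right
    have h1 : |∫ x, r x * h x ∂μ| ≤ ∫ x, (1 / (2 * ε) * r x ^ 2 + ε / 2 * f x ^ 2) ∂μ := by
      refine (abs_integral_le_integral_abs).trans ?_
      refine integral_mono_of_nonneg (Eventually.of_forall fun x => abs_nonneg _)
        ((hr2.const_mul _).add (hf2i.const_mul _)) (Eventually.of_forall fun x => ?_)
      have h2 := hhf x
      have h3 : |r x * h x| ≤ |r x| * |f x| := by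
        rw [abs_mul]
        gcongr
      refine h3.trans ?_
      have h4 : 0 ≤ (|r x| - ε * |f x|) ^ 2 := sq_nonneg _
      have h5 : |r x| ^ 2 = r x ^ 2 := sq_abs _
      have h6 : |f x| ^ 2 = f x ^ 2 := sq_abs _
      show |r x| * |f x| ≤ 1 / (2 * ε) * r x ^ 2 + ε / 2 * f x ^ 2
      rw [← h5, ← h6]
      have h7 : 1 / (2 * ε) * |r x| ^ 2 + ε / 2 * |f x| ^ 2 - |r x| * |f x| =
          1 / (2 * ε) * (|r x| - ε * |f x|) ^ 2 := by
        field_simp
        ring
      have h8 : 0 ≤ 1 / (2 * ε) * (|r x| - ε * |f x|) ^ 2 := by positivity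
      linarith
    refine h1.trans ?_
    rw [integral_add (hr2.const_mul _) (hf2i.const_mul _), integral_const_mul, integral_const_mul]
    have h2 : 1 / (2 * ε) * ∫ x, r x ^ 2 ∂μ ≤ 1 / (2 * ε) * (ε ^ 2 * N) := by gcongr
    have h3 : 1 / (2 * ε) * (ε ^ 2 * N) = ε / 2 * N := by field_simp
    rw [← hN]
    linarith
  have hPb : |P| ≤ ε * N := amgm f hfc fun x => le_rfl
  -- E1
  have E1 : G = lam * N - P := by
    have h1 := green b hU1 hf2 hf.c1 (Or.inl hf.2)
    have h2 : ∫ x, (∑ i, D (b i) f x * D (b i) f x) ∂μ = G := by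
      rw [hG]
      refine integral_congr_ae (Eventually.of_forall fun x => ?_)
      simp only [norm_fderiv_sq b]
      exact Finset.sum_congr rfl fun i _ => by ring
    have h3 : ∫ x, LO b U f x * f x ∂μ = P - lam * N := by
      have h4 : ∀ x, LO b U f x * f x = r x * f x - lam * f x ^ 2 := fun x => by
        simp only [hr]
        ring
      simp only [h4]
      rw [integral_sub hrf (hf2i.const_mul _), integral_const_mul]
    rw [← hμ, h3, h2] at h1
    linarith
  -- E2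
  set V := ∫ x, vs b I f x ∂μ with hV
  set HI := ∫ x, hs b I f x ∂μ with hHI
  have hvi : Integrable (vs b I f) μ := int_cs (cont_vs b I hf) (cs_vs b I hf)
  have hhi : Integrable (hs b I f) μ := int_cs (cont_hs b I hf) (cs_hs b I hf)
  have hDi : ∀ i, Integrable (fun x => (D (b i) f x) ^ 2) μ := fun i =>
    int_cs ((tst_D hf (b i)).cont.pow 2) (cs_sq (tst_D hf (b i)).2)
  have hHi : ∀ i, Integrable (fun x => ‖fderiv ℝ (D (b i) f) x‖ ^ 2) μ := fun i =>
    int_cs (cont_nf (tst_D hf (b i)).c1) (cs_nf (tst_D hf (b i)).2)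
  have hμ1 : μ.real univ = 1 := by simp
  have E2 : HI ≤ lam * V + (ε ^ 2 + lam * ε) * N := by
    have h1 := bochner b hU.smooth (q := fun _ => 0) continuous_const
      (fun x v => by
        have := hU.hess x v
        have h2 := hU.pos
        have h3 : 0 ≤ t * ‖v‖ ^ 2 := by positivity
        linarith) hf3 hf.2
    simp only [zero_mul, integral_zero, add_zero] at h1
    rw [← hμ, integral_finsetSum _ fun i _ => hHi i] at h1
    have h2 : ∫ x, (LO b U f x) ^ 2 ∂μ ≤ ε ^ 2 * N - 2 * lam * P + lam ^ 2 * N := by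
      have h3 : ∀ x, (LO b U f x) ^ 2 = (r x ^ 2 - 2 * lam * (r x * f x)) + lam ^ 2 * f x ^ 2 :=
        fun x => by
          simp only [hr]
          ring
      have h31 : Integrable (fun x => 2 * lam * (r x * f x)) μ := hrf.const_mul _
      have h32 : Integrable (fun x => r x ^ 2 - 2 * lam * (r x * f x)) μ := hr2.sub h31
      have h33 : Integrable (fun x => lam ^ 2 * f x ^ 2) μ := hf2i.const_mul _
      simp only [h3]
      rw [integral_add h32 h33, integral_sub hr2 h31, integral_const_mul, integral_const_mul]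
      linarith
    have h4 : G = ∑ i, ∫ x, (D (b i) f x) ^ 2 ∂μ := by
      rw [hG, ← integral_finsetSum _ fun i _ => hDi i]
      exact integral_congr_ae (Eventually.of_forall fun x => norm_fderiv_sq b f x)
    have h5 : V = ∑ i ∈ I, ∫ x, (D (b i) f x) ^ 2 ∂μ := by
      rw [hV, ← integral_finsetSum _ fun i _ => hDi i]
      rfl
    have h6 : HI = ∑ i ∈ I, ∫ x, ‖fderiv ℝ (D (b i) f) x‖ ^ 2 ∂μ := by
      rw [hHI, ← integral_finsetSum _ fun i _ => hHi i]
      rfl
    have h7 : ∀ i ∈ Iᶜ, lam * ∫ x, (D (b i) f x) ^ 2 ∂μ ≤ ∫ x, ‖fderiv ℝ (D (b i) f) x‖ ^ 2 ∂μ := by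
      intro i hi
      have h8 := hpc (D (b i) f) (tst_D hf (b i)).c1 (tst_D hf (b i)).2
      rw [hμ1, h0 i (Finset.mem_compl.1 hi)] at h8
      have h9 : lam * (1 * ∫ x, (D (b i) f x) ^ 2 ∂μ - 0 ^ 2) ≤
          lam * (1 / lam * (1 * ∫ x, ‖fderiv ℝ (D (b i) f) x‖ ^ 2 ∂μ)) := by gcongr
      have h10 : lam * (1 / lam * (1 * ∫ x, ‖fderiv ℝ (D (b i) f) x‖ ^ 2 ∂μ)) =
          ∫ x, ‖fderiv ℝ (D (b i) f) x‖ ^ 2 ∂μ := by field_simp
      rw [h10] at h9
      linarith
    have h11 := Finset.sum_le_sum h7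
    rw [← Finset.mul_sum] at h11
    have h12 := Finset.sum_add_sum_compl I (fun i => ∫ x, (D (b i) f x) ^ 2 ∂μ)
    have h13 := Finset.sum_add_sum_compl I (fun i => ∫ x, ‖fderiv ℝ (D (b i) f) x‖ ^ 2 ∂μ)
    rw [← h4, ← h5] at h12
    rw [← h6] at h13
    have h14 : ∑ i ∈ Iᶜ, ∫ x, (D (b i) f x) ^ 2 ∂μ = G - V := by linarith
    rw [h14] at h11
    exact ar_E2 hlam hPb E1 h11 (h13.le.trans h1) h2
  -- the excess
  set Z := ∫ x, zz b I f a x ∂μ with hZ
  have hzi : Integrable (zz b I f a) μ := int_cs (cont_zz b I hf a) (cs_zz b I hf a)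
  have hZ0 : 0 ≤ Z := integral_nonneg fun x => zz_nonneg b I f a x
  have hM0 : 0 ≤ M := integral_nonneg fun x => abs_nonneg _
  set κ := ε + (ε ^ 2 + lam * ε) / a ^ 2 with hκ
  have hκ0 : 0 ≤ κ := by positivity
  have key : ∀ δ : ℝ, 0 < δ → Z ≤ 711 * lam * (3 * M + δ) ^ 2 +
      6 * ((64 * κ + 4 * ε) * N + 4 * lam * δ ^ 2) := by
    intro δ hδ
    set w : E → ℝ := F.ww b I f a δ with hw
    have hwt : Tst (fun x => w x - δ) := tst_ww b I hf hδ
    have hwd : Integrable (fun x => w x - δ) μ := int_cs hwt.cont hwt.2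
    have hwi : Integrable w μ := by
      have h1 : w = fun x => (w x - δ) + δ := by
        funext x
        ring
      rw [h1]
      exact hwd.add (integrable_const _)
    set W := ∫ x, w x ∂μ with hW
    have hW0 : 0 ≤ W := integral_nonneg fun x => (F.ww_pos b I hδ x).le
    have hwN : Integrable (fun x => ‖fderiv ℝ w x‖ ^ 2) μ := by
      have h1 := int_cs (μ := μ) (cont_nf hwt.c1) (cs_nf hwt.2)
      have h2 : ∀ x, fderiv ℝ (fun y => w y - δ) x = fderiv ℝ w x := fun x => by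
        rw [fderiv_sub_const]
      simpa only [h2] using h1
    have hw2i : Integrable (fun x => w x ^ 2) μ := by
      have h1 : (fun x => w x ^ 2) = fun x => (f x ^ 2 + 1 / a ^ 2 * vs b I f x) + δ ^ 2 := by
        funext x
        rw [hw, ww_sq b I hδ]
        ring
      rw [h1]
      exact (hf2i.add (hvi.const_mul _)).add (integrable_const _)
    have hw2 : ∫ x, w x ^ 2 ∂μ = N + V / a ^ 2 + δ ^ 2 := by
      have h1 : ∀ x, w x ^ 2 = (f x ^ 2 + 1 / a ^ 2 * vs b I f x) + δ ^ 2 := by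
        intro x
        rw [hw, ww_sq b I hδ]
        ring
      have h2 : Integrable (fun x => 1 / a ^ 2 * vs b I f x) μ := hvi.const_mul _
      have h3 : Integrable (fun x => f x ^ 2 + 1 / a ^ 2 * vs b I f x) μ := hf2i.add h2
      simp only [h1]
      rw [integral_add h3 (integrable_const _), integral_add hf2i h2, integral_const_mul]
      simp only [integral_const, hμ1, smul_eq_mul, one_mul]
      ring
    -- E3
    set Y := ∫ x, yy b I f a δ x ∂μ with hY
    have hgi : Integrable (fun x => ‖fderiv ℝ f x‖ ^ 2) μ := int_cs (cont_nf hf.c1) (cs_nf hf.2)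
    have hyi : Integrable (yy b I f a δ) μ := by
      have h1 : yy b I f a δ = fun x => (‖fderiv ℝ f x‖ ^ 2 + 1 / a ^ 2 * hs b I f x) -
          ‖fderiv ℝ w x‖ ^ 2 := by
        funext x
        unfold yy
        ring
      rw [h1]
      exact (hgi.add (hhi.const_mul _)).sub hwN
    have hY0 : 0 ≤ Y := integral_nonneg fun x => yy_nonneg b I hf ha hδ x
    have E3 : Y ≤ lam * W ^ 2 + κ * N := by
      have h1 : Y = G + HI / a ^ 2 - ∫ x, ‖fderiv ℝ w x‖ ^ 2 ∂μ := by
        have h2 : ∀ x, yy b I f a δ x = (‖fderiv ℝ f x‖ ^ 2 + 1 / a ^ 2 * hs b I f x) -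
            ‖fderiv ℝ w x‖ ^ 2 := by
          intro x
          unfold yy
          ring
        have h3 : Integrable (fun x => 1 / a ^ 2 * hs b I f x) μ := hhi.const_mul _
        have h4 : Integrable (fun x => ‖fderiv ℝ f x‖ ^ 2 + 1 / a ^ 2 * hs b I f x) μ := hgi.add h3
        rw [hY]
        simp only [h2]
        rw [integral_sub h4 hwN, integral_add hgi h3, integral_const_mul]
        ring
      have h2 := hpc (fun x => w x - δ) hwt.c1 hwt.2
      have h3 : ∀ x, fderiv ℝ (fun y => w y - δ) x = fderiv ℝ w x := fun x => by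
        rw [fderiv_sub_const]
      simp only [h3] at h2
      rw [hμ1] at h2
      have h4 : ∫ x, (w x - δ) ∂μ = W - δ := by
        rw [integral_sub hwi (integrable_const _)]
        simp only [integral_const, hμ1, smul_eq_mul, one_mul]
        rfl
      have h5 : ∫ x, (w x - δ) ^ 2 ∂μ = (N + V / a ^ 2 + δ ^ 2) - 2 * δ * W + δ ^ 2 := by
        have h6 : ∀ x, (w x - δ) ^ 2 = (w x ^ 2 - (2 * δ) * w x) + δ ^ 2 := fun x => by ring
        have h7 : Integrable (fun x => (2 * δ) * w x) μ := hwi.const_mul _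
        have h8 : Integrable (fun x => w x ^ 2 - (2 * δ) * w x) μ := hw2i.sub h7
        simp only [h6]
        rw [integral_add h8 (integrable_const _), integral_sub hw2i h7, integral_const_mul, hw2]
        simp only [integral_const, hμ1, smul_eq_mul, one_mul]
        rfl
      rw [h4, h5] at h2
      have h9 : lam * (N + V / a ^ 2 + δ ^ 2 - W ^ 2) ≤ ∫ x, ‖fderiv ℝ w x‖ ^ 2 ∂μ := by
        have h10 : lam * (1 * (N + V / a ^ 2 + δ ^ 2 - 2 * δ * W + δ ^ 2) - (W - δ) ^ 2) ≤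
            lam * (1 / lam * (1 * ∫ x, ‖fderiv ℝ w x‖ ^ 2 ∂μ)) := by gcongr
        have h11 : lam * (1 / lam * (1 * ∫ x, ‖fderiv ℝ w x‖ ^ 2 ∂μ)) =
            ∫ x, ‖fderiv ℝ w x‖ ^ 2 ∂μ := by field_simp
        rw [h11] at h10
        calc _ = _ := by ring
          _ ≤ _ := h10
      exact ar_E3 hlam ha hPb E1 hκ E2 h1 h9
    -- E4
    set X := ∫ x, cut b I f a δ x * ‖fderiv ℝ f x‖ ^ 2 ∂μ with hX
    have hcutc : Continuous (cut b I f a δ) := (contDiff_cut b I hf hδ).continuous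
    have hXi : Integrable (fun x => cut b I f a δ x * ‖fderiv ℝ f x‖ ^ 2) μ :=
      int_cs (hcutc.mul (cont_nf hf.c1)) (cs_nf hf.2).mul_left
    have hX0 : 0 ≤ X := integral_nonneg fun x =>
      mul_nonneg (cut_nonneg b I f a δ x) (sq_nonneg _)
    have E4 : X ≤ 64 * Y + 4 * lam * δ ^ 2 + 4 * ε * N := by
      have hφ : ContDiff ℝ 1 (fun x => f x * cut b I f a δ x) := hf.c1.mul (contDiff_cut b I hf hδ)
      have h1 := green b hU1 hf2 hφ (Or.inl hf.2)
      rw [← hμ] at h1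
      -- the right hand side
      have hQc : Continuous (fun x => f x * ∑ i, D (b i) f x * D (b i) (cut b I f a δ) x) := by
        refine hfc.mul (continuous_finsetSum _ fun i _ => (tst_D hf (b i)).cont.mul ?_)
        unfold D
        exact ((contDiff_cut b I hf hδ).continuous_fderiv one_ne_zero).clm_apply continuous_const
      have hQi : Integrable (fun x => f x * ∑ i, D (b i) f x * D (b i) (cut b I f a δ) x) μ :=
        int_cs hQc hf.2.mul_right
      have h2 : ∫ x, (∑ i, D (b i) f x * D (b i) (fun x => f x * cut b I f a δ x) x) ∂μ =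
          X + ∫ x, f x * ∑ i, D (b i) f x * D (b i) (cut b I f a δ) x ∂μ := by
        rw [hX, ← integral_add hXi hQi]
        refine integral_congr_ae (Eventually.of_forall fun x => ?_)
        simp only
        rw [norm_fderiv_sq b, Finset.mul_sum, Finset.mul_sum, ← Finset.sum_add_distrib]
        refine Finset.sum_congr rfl fun i _ => ?_
        rw [D_mul (hf.diff x) ((contDiff_cut b I hf hδ).differentiable one_ne_zero x)]
        ring
      have h3 : ∫ x, LO b U f x * (f x * cut b I f a δ x) ∂μ =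
          (∫ x, r x * (f x * cut b I f a δ x) ∂μ) - lam * ∫ x, f x ^ 2 * cut b I f a δ x ∂μ := by
        have h4 : ∀ x, LO b U f x * (f x * cut b I f a δ x) =
            r x * (f x * cut b I f a δ x) - lam * (f x ^ 2 * cut b I f a δ x) := fun x => by
          simp only [hr]
          ring
        have h5 : Integrable (fun x => r x * (f x * cut b I f a δ x)) μ :=
          int_cs (hrc.mul (hfc.mul hcutc)) hrs.mul_right
        have h6 : Integrable (fun x => f x ^ 2 * cut b I f a δ x) μ :=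
          int_cs ((hfc.pow 2).mul hcutc) (cs_sq hf.2).mul_right
        have h7 : Integrable (fun x => lam * (f x ^ 2 * cut b I f a δ x)) μ := h6.const_mul _
        simp only [h4]
        rw [integral_sub h5 h7, integral_const_mul]
      rw [h2, h3] at h1
      have h8 := amgm (fun x => f x * cut b I f a δ x) (hfc.mul hcutc) (fun x => by
        rw [abs_mul]
        have h9 : |cut b I f a δ x| ≤ 1 := by
          rw [abs_of_nonneg (cut_nonneg b I f a δ x)]
          exact cut_le_one b I f a δ x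
        exact mul_le_of_le_one_right (abs_nonneg _) h9)
      have h9 : ∫ x, f x ^ 2 * cut b I f a δ x ∂μ ≤ 1 / a ^ 2 * X + δ ^ 2 := by
        have h10 : Integrable (fun x => 1 / a ^ 2 * (cut b I f a δ x * ‖fderiv ℝ f x‖ ^ 2)) μ :=
          hXi.const_mul _
        have h101 : Integrable (fun x =>
            1 / a ^ 2 * (cut b I f a δ x * ‖fderiv ℝ f x‖ ^ 2) + δ ^ 2) μ :=
          h10.add (integrable_const _)
        have h102 : ∀ x, f x ^ 2 * cut b I f a δ x ≤
            1 / a ^ 2 * (cut b I f a δ x * ‖fderiv ℝ f x‖ ^ 2) + δ ^ 2 := fun x => p2 b I ha hδ x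
        have h103 : Integrable (fun x => f x ^ 2 * cut b I f a δ x) μ :=
          int_cs ((hfc.pow 2).mul hcutc) (cs_sq hf.2).mul_right
        have h104 : ∫ x, f x ^ 2 * cut b I f a δ x ∂μ
            ≤ ∫ x, (1 / a ^ 2 * (cut b I f a δ x * ‖fderiv ℝ f x‖ ^ 2) + δ ^ 2) ∂μ :=
          integral_mono h103 h101 h102
        rw [integral_add h10 (integrable_const _), integral_const_mul] at h104
        simp only [integral_const, hμ1, smul_eq_mul, one_mul] at h104
        exact h104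
      have h11 : -(∫ x, f x * ∑ i, D (b i) f x * D (b i) (cut b I f a δ) x ∂μ) ≤
          1 / 4 * X + 16 * Y := by
        have h12 : Integrable (fun x => 1 / 4 * (cut b I f a δ x * ‖fderiv ℝ f x‖ ^ 2)) μ :=
          hXi.const_mul _
        have h13 : Integrable (fun x => 16 * yy b I f a δ x) μ := hyi.const_mul _
        have h131 : Integrable (fun x => 1 / 4 * (cut b I f a δ x * ‖fderiv ℝ f x‖ ^ 2) +
            16 * yy b I f a δ x) μ := h12.add h13
        have h132 : Integrable (fun x =>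
            -(f x * ∑ i, D (b i) f x * D (b i) (cut b I f a δ) x)) μ := hQi.neg
        have h133 : ∀ x, -(f x * ∑ i, D (b i) f x * D (b i) (cut b I f a δ) x) ≤
            1 / 4 * (cut b I f a δ x * ‖fderiv ℝ f x‖ ^ 2) + 16 * yy b I f a δ x :=
          fun x => p1 b I hf ha hδ x
        have h134 := integral_mono h132 h131 h133
        rw [integral_neg, integral_add h12 h13, integral_const_mul, integral_const_mul] at h134
        exact h134
      exact ar_E4 hlam ha hla hX0 h1 h8 h9 h11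
    -- E5, E6
    have E5 : Z ≤ 25 / 9 * X := by
      have h1 : Integrable (fun x => 25 / 9 * (cut b I f a δ x * ‖fderiv ℝ f x‖ ^ 2)) μ :=
        hXi.const_mul _
      have h2 : ∀ x, zz b I f a x ≤ 25 / 9 * (cut b I f a δ x * ‖fderiv ℝ f x‖ ^ 2) :=
        fun x => p3 b I ha hδ x
      have h3 := integral_mono hzi h1 h2
      rw [integral_const_mul] at h3
      exact h3
    set q := ∫ x, Real.sqrt (zz b I f a x) ∂μ with hq
    have hsz : Integrable (fun x => Real.sqrt (zz b I f a x)) μ :=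
      int_cs ((cont_zz b I hf a).sqrt) ((cs_zz b I hf a).comp_left (g := Real.sqrt) (by simp))
    have hq2 : q ^ 2 ≤ Z := by
      have h1 : (fun x => Real.sqrt (zz b I f a x) ^ 2) = zz b I f a := by
        funext x
        exact Real.sq_sqrt (zz_nonneg b I f a x)
      have h2 := F.sq_integral_le hsz (by rw [h1]; exact hzi)
      rw [h1] at h2
      exact h2
    have hfa : Integrable (fun x => |f x|) μ := int_cs hfc.abs hf.2.norm
    have E6 : W ≤ 3 * M + δ + q / a := by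
      have h1 : Integrable (fun x => 3 * |f x|) μ := hfa.const_mul _
      have h2 : Integrable (fun x => Real.sqrt (zz b I f a x) / a) μ := hsz.div_const _
      have h3 : Integrable (fun x => 3 * |f x| + Real.sqrt (zz b I f a x) / a) μ := h1.add h2
      have h4 : Integrable (fun x => 3 * |f x| + Real.sqrt (zz b I f a x) / a + δ) μ :=
        h3.add (integrable_const _)
      have h5 : ∀ x, w x ≤ 3 * |f x| + Real.sqrt (zz b I f a x) / a + δ :=
        fun x => p4 b I ha hδ x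
      have h6 := integral_mono hwi h4 h5
      rw [integral_add h3 (integrable_const _), integral_add h1 h2, integral_const_mul,
        integral_div] at h6
      simp only [integral_const, hμ1, smul_eq_mul, one_mul] at h6
      calc W ≤ 3 * M + q / a + δ := h6
        _ = _ := by ring
    have hq0 : 0 ≤ q := integral_nonneg fun x => Real.sqrt_nonneg _
    exact ar_E7 hlam ha hδ hla hZ0 hM0 hW0 hq0 hN0 hκ0 hε E3 E4 E5 hq2 E6
  -- let δ → 0
  have hlim : Z ≤ 711 * lam * (3 * M + 0) ^ 2 + 6 * ((64 * κ + 4 * ε) * N + 4 * lam * 0 ^ 2) := by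
    have hcont : Continuous (fun δ : ℝ => 711 * lam * (3 * M + δ) ^ 2 +
        6 * ((64 * κ + 4 * ε) * N + 4 * lam * δ ^ 2)) := by fun_prop
    have ht := (hcont.tendsto 0).mono_left (nhdsWithin_le_nhds (s := Ioi 0))
    exact ge_of_tendsto ht (by
      filter_upwards [self_mem_nhdsWithin] with δ hδ
      exact key δ hδ)
  exact ar_fin hlam ha hε hε1 hN0 hκ hlim

end Pool.Agent.H84.Sym
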