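import Pool.Agent.H84.KlsClass
import Pool.Agent.H84.Unc.Defs

/-!
# Convex bodies with many symmetries: shared definitions
-/

set_option autoImplicit false

open MeasureTheory Set
open scoped ContDiff

namespace Pool.Agent.H84.Sym

variable {E : Type*} [NormedAddCommGroup E] [InnerProductSpace ℝ E]

/-- Directional derivative. -/
noncomputable def D (e : E) (f : E → ℝ) (x : E) : ℝ := fderiv ℝ f x e

/-- The operator `Δ - ∇U · ∇`, written in an orthonormal basis. -/
noncomputable def LO {ι : Type*} [Fintype ι] (b : OrthonormalBasis ι ℝ E) (U u : E → ℝ) (x : E) :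
    ℝ :=
  (∑ i, D (b i) (D (b i) u) x) - ∑ i, D (b i) U x * D (b i) u x

/-- Smooth compactly supported functions. -/
def Tst (f : E → ℝ) : Prop := ContDiff ℝ ∞ f ∧ HasCompactSupport f

/-- Potentials: `C²`, uniformly convex, gradient of linear growth. -/
structure Pot (U : E → ℝ) (t C : ℝ) : Prop where
  smooth : ContDiff ℝ 2 U
  pos : 0 < t
  hess : ∀ x v : E, t * ‖v‖ ^ 2 ≤ fderiv ℝ (fderiv ℝ U) x v v
  grad : ∀ x : E, ‖fderiv ℝ U x‖ ≤ C * (1 + ‖x‖)

/-- The subspace moved by a linear map: orthogonal complement of the fixed vectors. -/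
noncomputable def Mv (g : E →ₗ[ℝ] E) : Submodule ℝ E := (LinearMap.ker (g - LinearMap.id))ᗮ

/-- The weight function of the fibres: `√(R² + |P x|²)`, `P` the projection on `S`. -/
noncomputable def ph (S : Submodule ℝ E) [S.HasOrthogonalProjection] (R : ℝ) (x : E) : ℝ :=
  Real.sqrt (R ^ 2 + ‖S.orthogonalProjectionOnto x‖ ^ 2)

variable [MeasurableSpace E]

/-- The measure with density `exp (-U)`. -/
noncomputable def mu [FiniteDimensional ℝ E] [BorelSpace E] (U : E → ℝ) : Measure E :=
  (volume : Measure E).withDensity (fun x => ENNReal.ofReal (Real.exp (-U x)))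

/-- Poincare inequality with constant `L` for the finite measure `μ` (without division). -/
def GPC (μ : Measure E) (L : ℝ) : Prop :=
  ∀ f : E → ℝ, ContDiff ℝ 1 f → HasCompactSupport f →
    μ.real univ * (∫ x, f x ^ 2 ∂μ) - (∫ x, f x ∂μ) ^ 2
      ≤ L * (μ.real univ * ∫ x, ‖fderiv ℝ f x‖ ^ 2 ∂μ)

end Pool.Agent.H84.Sym
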