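import Pool.Agent.H84.Sym.Defs
import Pool.Agent.H54.Sym.L2

/-!
# Bodies with many symmetries and a small fixed space: shared definitions
-/

set_option autoImplicit false

open MeasureTheory Set

namespace Pool.Agent.H84.Sym

open Pool.Agent.H84

universe v

variable {E : Type v} [NormedAddCommGroup E] [InnerProductSpace ℝ E]
    [FiniteDimensional ℝ E] [MeasurableSpace E] [BorelSpace E]

/-- Growth condition. -/
def Gr {H : Type*} [NormedAddCommGroup H] (F : H → ℝ) : Prop :=
  ∃ A B : ℝ, ∀ x, |F x| ≤ A * Real.exp (B * ‖x‖)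

/-- Restriction of a function to the affine subspace `z + S`. -/
def sec (S : Submodule ℝ E) (U : E → ℝ) (z : E) (x : S) : ℝ := U ((x : E) + z)

/-- Partial integral over `S`. -/
noncomputable def pint (S : Submodule ℝ E) (U F : E → ℝ) (z : Sᗮ) : ℝ :=
  ∫ x : S, F ((x : E) + (z : E)) * Real.exp (-U ((x : E) + (z : E)))

/-- Conditional mean. -/
noncomputable def cav (S : Submodule ℝ E) (U F : E → ℝ) (z : Sᗮ) : ℝ :=
  pint S U F z / pint S U (fun _ => 1) z

/-- The marginal potential on `Sᗮ`. -/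
noncomputable def mg (S : Submodule ℝ E) (U : E → ℝ) (z : Sᗮ) : ℝ :=
  -Real.log (pint S U (fun _ => 1) z)

/-- The approximating potentials. -/
noncomputable def PUS (K : Set E) (S : Submodule ℝ E) (r : ℝ) (j : ℕ) (x : E) : ℝ :=
  PU K (1 / ((j:ℝ) + 1)) (1 / ((j:ℝ) + 1)) x +
    ‖Sᗮ.orthogonalProjectionOnto x‖ ^ 2 / (2 * r ^ 2)

/-- The common fixed vectors. -/
def FixG {n : ℕ} (G : Set (EuclideanSpace ℝ (Fin n) →ₗ[ℝ] EuclideanSpace ℝ (Fin n))) :
    Submodule ℝ (EuclideanSpace ℝ (Fin n)) := ⨅ g ∈ G, LinearMap.ker (g - LinearMap.id)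

end Pool.Agent.H84.Sym
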