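import Pool.Agent.H84.Sym.Defs

/-!
# SYM, module F1: pointwise part of the core inequality
-/

set_option autoImplicit false

open MeasureTheory Set
open scoped ContDiff

namespace Pool.Agent.H84.Sym

namespace F

/-! ### The square of the positive part -/

theorem hasDerivAt_pp (t : ℝ) : HasDerivAt (fun s : ℝ => (max s 0) ^ 2) (2 * max t 0) t := by
  rcases lt_trichotomy t 0 with h | h | h
  · have h1 : (fun s : ℝ => (max s 0) ^ 2) =ᶠ[nhds t] fun _ => 0 := by
      filter_upwards [Iio_mem_nhds h] with s hs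
      rw [max_eq_right (le_of_lt hs)]
      norm_num
    rw [max_eq_right h.le, mul_zero]
    exact (hasDerivAt_const t (0:ℝ)).congr_of_eventuallyEq h1
  · subst h
    rw [max_self, mul_zero, hasDerivAt_iff_isLittleO]
    simp only [max_self, sub_zero, smul_zero]
    norm_num
    rw [Asymptotics.isLittleO_iff]
    intro c hc
    filter_upwards [Metric.ball_mem_nhds (0:ℝ) hc] with s hs
    rw [Metric.mem_ball, dist_zero_right, Real.norm_eq_abs] at hs
    rw [Real.norm_eq_abs, Real.norm_eq_abs, abs_pow]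
    have h1 : |max s 0| ≤ |s| := by
      rcases le_total s 0 with h | h
      · rw [max_eq_right h]
        simp
      · rw [max_eq_left h]
    calc |max s 0| ^ 2 ≤ |s| ^ 2 := by gcongr
      _ = |s| * |s| := by ring
      _ ≤ c * |s| := by gcongr
  · have h1 : (fun s : ℝ => (max s 0) ^ 2) =ᶠ[nhds t] fun s => s ^ 2 := by
      filter_upwards [Ioi_mem_nhds h] with s hs
      rw [max_eq_left (le_of_lt hs)]
    rw [max_eq_left h.le]
    have h2 : HasDerivAt (fun s : ℝ => s ^ 2) (2 * t) t := by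
      simpa using hasDerivAt_pow 2 t
    exact h2.congr_of_eventuallyEq h1

theorem contDiff_pp : ContDiff ℝ 1 (fun s : ℝ => (max s 0) ^ 2) := by
  rw [contDiff_one_iff_deriv]
  refine ⟨fun t => (hasDerivAt_pp t).differentiableAt, ?_⟩
  have : deriv (fun s : ℝ => (max s 0) ^ 2) = fun t => 2 * max t 0 := by
    ext t
    exact (hasDerivAt_pp t).deriv
  rw [this]
  fun_prop

/-! ### Algebra -/

theorem alg1 {A u ρ B q : ℝ} (hq : q = 1 - u ^ 2) (hq0 : 0 < q) (hρ : ρ ^ 2 ≤ q * B) :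
    (u * A + ρ) ^ 2 + (A - u * (u * A + ρ)) ^ 2 ≤ A ^ 2 + B := by
  have h1 : q * ((u * A + ρ) ^ 2 + (A - u * (u * A + ρ)) ^ 2 - A ^ 2) =
      ρ ^ 2 - (u * q * A - u ^ 2 * ρ) ^ 2 := by
    subst hq
    ring
  have h2 : q * ((u * A + ρ) ^ 2 + (A - u * (u * A + ρ)) ^ 2 - A ^ 2) ≤ q * B := by
    rw [h1]
    nlinarith [sq_nonneg (u * q * A - u ^ 2 * ρ)]
  have := le_of_mul_le_mul_left h2 hq0
  linarith

/-- The basic pointwise inequality, in one direction. -/
theorem alg2 {ι : Type*} (I : Finset ι) (v β : ι → ℝ) {F A w p a δ : ℝ} (ha : 0 < a)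
    (hδ : 0 < δ) (hw0 : 0 < w) (hw : w ^ 2 = F ^ 2 + (∑ i ∈ I, v i ^ 2) / a ^ 2 + δ ^ 2)
    (hp : w * p = F * A + (∑ i ∈ I, v i * β i) / a ^ 2) :
    p ^ 2 + (A - F / w * p) ^ 2 ≤ A ^ 2 + (∑ i ∈ I, β i ^ 2) / a ^ 2 := by
  set S := ∑ i ∈ I, v i ^ 2 with hS
  set T := ∑ i ∈ I, v i * β i with hT
  set Q := ∑ i ∈ I, β i ^ 2 with hQ
  have hCS : T ^ 2 ≤ S * Q := Finset.sum_mul_sq_le_sq_mul_sq I v β
  have ha2 : 0 < a ^ 2 := by positivity
  set u := F / w with hu
  set ρ := T / a ^ 2 / w with hρd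
  have hp' : p = u * A + ρ := by
    rw [hu, hρd]
    field_simp
    field_simp at hp
    linarith
  have hq : 1 - u ^ 2 = (S / a ^ 2 + δ ^ 2) / w ^ 2 := by
    rw [hu, div_pow]
    field_simp
    field_simp at hw
    linarith
  have hS0 : 0 ≤ S := Finset.sum_nonneg fun i _ => sq_nonneg _
  have hQ0 : 0 ≤ Q := Finset.sum_nonneg fun i _ => sq_nonneg _
  have hq0 : 0 < 1 - u ^ 2 := by
    rw [hq]
    positivity
  have hρ : ρ ^ 2 ≤ (1 - u ^ 2) * (Q / a ^ 2) := by
    rw [hq, hρd, div_pow, div_pow, div_mul_eq_mul_div]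
    refine div_le_div_of_nonneg_right ?_ (by positivity)
    have h1 : T ^ 2 / (a ^ 2) ^ 2 ≤ S * Q / (a ^ 2) ^ 2 := by gcongr
    have h2 : S * Q / (a ^ 2) ^ 2 = S / a ^ 2 * (Q / a ^ 2) := by
      field_simp
    have h3 : 0 ≤ δ ^ 2 * (Q / a ^ 2) := by positivity
    calc T ^ 2 / (a ^ 2) ^ 2 ≤ S / a ^ 2 * (Q / a ^ 2) := h1.trans h2.le
      _ ≤ (S / a ^ 2 + δ ^ 2) * (Q / a ^ 2) := by linarith
  have := alg1 (A := A) rfl hq0 hρ
  rw [hp']
  exact this

/-! ### Calculus of `D` -/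

section calculus

variable {E : Type*} [NormedAddCommGroup E] [InnerProductSpace ℝ E]

theorem D_mul {f g : E → ℝ} {x : E} (hf : DifferentiableAt ℝ f x) (hg : DifferentiableAt ℝ g x)
    (e : E) : D e (fun y => f y * g y) x = f x * D e g x + g x * D e f x := by
  unfold D
  rw [fderiv_fun_mul hf hg]
  rfl

theorem D_add {f g : E → ℝ} {x : E} (hf : DifferentiableAt ℝ f x) (hg : DifferentiableAt ℝ g x)
    (e : E) : D e (fun y => f y + g y) x = D e f x + D e g x := by
  unfold D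
  rw [fderiv_fun_add hf hg]
  rfl

theorem D_sub {f g : E → ℝ} {x : E} (hf : DifferentiableAt ℝ f x) (hg : DifferentiableAt ℝ g x)
    (e : E) : D e (fun y => f y - g y) x = D e f x - D e g x := by
  unfold D
  rw [fderiv_fun_sub hf hg]
  rfl

theorem D_comp_real {g : ℝ → ℝ} {f : E → ℝ} {x : E} {g' : ℝ} (hg : HasDerivAt g g' (f x))
    (hf : DifferentiableAt ℝ f x) (e : E) : D e (fun y => g (f y)) x = g' * D e f x := by
  unfold D
  have h := hg.comp_hasFDerivAt x hf.hasFDerivAt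
  have h2 : fderiv ℝ (fun y => g (f y)) x = g' • fderiv ℝ f x := h.fderiv
  rw [h2]
  rfl

theorem D_sq {f : E → ℝ} {x : E} (hf : DifferentiableAt ℝ f x) (e : E) :
    D e (fun y => f y ^ 2) x = 2 * f x * D e f x := by
  have h : HasDerivAt (fun t : ℝ => t ^ 2) (2 * f x) (f x) := by simpa using hasDerivAt_pow 2 (f x)
  exact D_comp_real h hf e

theorem D_sum {κ : Type*} (I : Finset κ) {f : κ → E → ℝ} {x : E}
    (hf : ∀ i ∈ I, DifferentiableAt ℝ (f i) x) (e : E) :
    D e (fun y => ∑ i ∈ I, f i y) x = ∑ i ∈ I, D e (f i) x := by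
  unfold D
  rw [fderiv_fun_sum hf]
  simp

theorem D_const_mul {f : E → ℝ} {x : E} (hf : DifferentiableAt ℝ f x) (c : ℝ) (e : E) :
    D e (fun y => c * f y) x = c * D e f x := by
  unfold D
  rw [fderiv_const_mul hf]
  rfl

theorem tst_D {f : E → ℝ} (hf : Tst f) (e : E) : Tst (D e f) := by
  refine ⟨?_, ?_⟩
  · unfold D
    exact (hf.1.fderiv_right (m := ∞) (by simp)).clm_apply contDiff_const
  · unfold D
    exact hf.2.fderiv_apply ℝ e

theorem _root_.Pool.Agent.H84.Sym.Tst.diff {f : E → ℝ} (hf : Tst f) : Differentiable ℝ f :=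
  hf.1.differentiable (by simp)

theorem _root_.Pool.Agent.H84.Sym.Tst.cont {f : E → ℝ} (hf : Tst f) : Continuous f := hf.1.continuous

theorem _root_.Pool.Agent.H84.Sym.Tst.c1 {f : E → ℝ} (hf : Tst f) : ContDiff ℝ 1 f := hf.1.of_le (by exact_mod_cast le_top)

end calculus

/-! ### The functions of the proof -/

section funs

variable {E : Type*} [NormedAddCommGroup E] [InnerProductSpace ℝ E]
variable {ι : Type*} [Fintype ι] (b : OrthonormalBasis ι ℝ E) (I : Finset ι) (f : E → ℝ) (a δ : ℝ)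

/-- Squared length of the partial gradient. -/
noncomputable def vs (x : E) : ℝ := ∑ i ∈ I, (D (b i) f x) ^ 2

noncomputable def ww (x : E) : ℝ := Real.sqrt (f x ^ 2 + vs b I f x / a ^ 2 + δ ^ 2)

noncomputable def uu (x : E) : ℝ := f x / ww b I f a δ x

noncomputable def eta (x : E) : ℝ := 1 - 2 * uu b I f a δ x ^ 2

noncomputable def cut (x : E) : ℝ := (max (eta b I f a δ x) 0) ^ 2

variable {f a δ}

theorem vs_nonneg (x : E) : 0 ≤ vs b I f x := Finset.sum_nonneg fun _ _ => sq_nonneg _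

theorem ww_arg_pos (hδ : 0 < δ) (x : E) : 0 < f x ^ 2 + vs b I f x / a ^ 2 + δ ^ 2 := by
  have := vs_nonneg b I (f := f) x
  positivity

theorem ww_pos (hδ : 0 < δ) (x : E) : 0 < ww b I f a δ x := Real.sqrt_pos.2 (ww_arg_pos b I hδ x)

theorem ww_sq (hδ : 0 < δ) (x : E) :
    ww b I f a δ x ^ 2 = f x ^ 2 + vs b I f x / a ^ 2 + δ ^ 2 :=
  Real.sq_sqrt (ww_arg_pos b I hδ x).le

theorem contDiff_vs (hf : Tst f) : ContDiff ℝ ∞ (vs b I f) := by
  unfold vs
  exact ContDiff.sum fun i _ => (tst_D hf (b i)).1.pow 2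

theorem contDiff_ww (hf : Tst f) (hδ : 0 < δ) : ContDiff ℝ ∞ (ww b I f a δ) := by
  unfold ww
  refine ContDiff.sqrt ?_ (fun x => (ww_arg_pos b I hδ x).ne')
  exact ((hf.1.pow 2).add ((contDiff_vs b I hf).div_const _)).add contDiff_const

theorem contDiff_uu (hf : Tst f) (hδ : 0 < δ) : ContDiff ℝ ∞ (uu b I f a δ) := by
  unfold uu
  exact hf.1.div (contDiff_ww b I hf hδ) fun x => (ww_pos b I hδ x).ne'

theorem contDiff_eta (hf : Tst f) (hδ : 0 < δ) : ContDiff ℝ ∞ (eta b I f a δ) := by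
  unfold eta
  exact contDiff_const.sub (contDiff_const.mul ((contDiff_uu b I hf hδ).pow 2))

theorem contDiff_cut (hf : Tst f) (hδ : 0 < δ) : ContDiff ℝ 1 (cut b I f a δ) := by
  unfold cut
  exact contDiff_pp.comp ((contDiff_eta b I hf hδ).of_le (by exact_mod_cast le_top))

/-- `w D w = f D f + ...`. -/
theorem ww_D (hf : Tst f) (hδ : 0 < δ) (e x : E) :
    ww b I f a δ x * D e (ww b I f a δ) x =
      f x * D e f x + (∑ i ∈ I, D (b i) f x * D e (D (b i) f) x) / a ^ 2 := by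
  have hd : ∀ y, DifferentiableAt ℝ (ww b I f a δ) y :=
    fun y => ((contDiff_ww b I hf hδ).differentiable (by simp)) y
  have h1 : D e (fun y => ww b I f a δ y ^ 2) x = 2 * ww b I f a δ x * D e (ww b I f a δ) x :=
    D_sq (hd x) e
  have h2 : (fun y => ww b I f a δ y ^ 2) =
      fun y => f y ^ 2 + ((1 / a ^ 2) * ∑ i ∈ I, (D (b i) f y) ^ 2) + δ ^ 2 := by
    ext y
    rw [ww_sq b I hδ, vs]
    ring
  have hfd : DifferentiableAt ℝ f x := hf.diff x
  have hDd : ∀ i, DifferentiableAt ℝ (D (b i) f) x := fun i => (tst_D hf (b i)).diff x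
  have hs : DifferentiableAt ℝ (fun y => ∑ i ∈ I, (D (b i) f y) ^ 2) x :=
    DifferentiableAt.fun_sum fun i _ => (hDd i).pow 2
  rw [h2] at h1
  have h3 : D e (fun y => f y ^ 2 + ((1 / a ^ 2) * ∑ i ∈ I, (D (b i) f y) ^ 2) + δ ^ 2) x =
      2 * f x * D e f x + (1 / a ^ 2) * ∑ i ∈ I, 2 * D (b i) f x * D e (D (b i) f) x := by
    have h7 : D e (fun y => ∑ i ∈ I, (D (b i) f y) ^ 2) x =
        ∑ i ∈ I, 2 * D (b i) f x * D e (D (b i) f) x := by
      rw [D_sum I (f := fun i y => (D (b i) f y) ^ 2) fun i _ => (hDd i).pow 2]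
      exact Finset.sum_congr rfl fun i _ => D_sq (hDd i) e
    rw [D_add (by fun_prop) (by fun_prop), D_add (by fun_prop) (by fun_prop), D_sq hfd,
      D_const_mul hs, h7]
    have h4 : D e (fun _ : E => δ ^ 2) x = 0 := by
      unfold D
      simp
    rw [h4, add_zero]
  rw [h3] at h1
  have h5 : ∑ i ∈ I, 2 * D (b i) f x * D e (D (b i) f) x =
      2 * ∑ i ∈ I, D (b i) f x * D e (D (b i) f) x := by
    rw [Finset.mul_sum]
    exact Finset.sum_congr rfl fun i _ => by ring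
  rw [h5] at h1
  have h6 : 2 * (ww b I f a δ x * D e (ww b I f a δ) x) =
      2 * (f x * D e f x + (∑ i ∈ I, D (b i) f x * D e (D (b i) f) x) / a ^ 2) := by
    rw [← mul_assoc, ← h1]
    ring
  linarith

theorem uu_D (hf : Tst f) (hδ : 0 < δ) (e x : E) :
    ww b I f a δ x * D e (uu b I f a δ) x =
      D e f x - f x / ww b I f a δ x * D e (ww b I f a δ) x := by
  have hw := ww_pos b I (f := f) (a := a) hδ x
  have h0 : D e (fun y => ww b I f a δ y * uu b I f a δ y) x = D e f x := by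
    congr 1
    ext y
    have := ww_pos b I (f := f) (a := a) hδ y
    unfold uu
    field_simp
  rw [D_mul ((contDiff_ww b I hf hδ).differentiable (by simp) x)
    ((contDiff_uu b I hf hδ).differentiable (by simp) x)] at h0
  have : uu b I f a δ x = f x / ww b I f a δ x := rfl
  rw [this] at h0
  linarith

/-- The pointwise inequality in one direction. -/
theorem point_dir (hf : Tst f) (ha : 0 < a) (hδ : 0 < δ) (e x : E) :
    (D e (ww b I f a δ) x) ^ 2 + (ww b I f a δ x * D e (uu b I f a δ) x) ^ 2 ≤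
      (D e f x) ^ 2 + (∑ i ∈ I, (D e (D (b i) f) x) ^ 2) / a ^ 2 := by
  rw [uu_D b I hf hδ]
  exact alg2 I (fun i => D (b i) f x) (fun i => D e (D (b i) f) x) ha hδ (ww_pos b I hδ x)
    (ww_sq b I hδ x) (ww_D b I hf hδ e x)

theorem eta_D (hf : Tst f) (hδ : 0 < δ) (e x : E) :
    D e (eta b I f a δ) x = -4 * uu b I f a δ x * D e (uu b I f a δ) x := by
  have hd := (contDiff_uu b I hf hδ (a := a)).differentiable (by simp) x
  unfold eta
  rw [D_sub (by fun_prop) (by fun_prop), D_const_mul (by fun_prop), D_sq hd]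
  have h4 : D e (fun _ : E => (1:ℝ)) x = 0 := by
    unfold D
    simp
  rw [h4]
  ring

theorem cut_D (hf : Tst f) (hδ : 0 < δ) (e x : E) :
    D e (cut b I f a δ) x = 2 * max (eta b I f a δ x) 0 * D e (eta b I f a δ) x := by
  unfold cut
  exact D_comp_real (hasDerivAt_pp _) ((contDiff_eta b I hf hδ).differentiable (by simp) x) e

end funs

end F

end Pool.Agent.H84.Sym
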