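import Pool.Agent.H84.Sym.P6b

/-!
# SYM2, module P6: Poincare inequality from the sections and the fixed space
-/

set_option autoImplicit false
set_option linter.unusedSectionVars false

open MeasureTheory Set Filter Topology
open scoped ContDiff

namespace Pool.Agent.H84.Sym

open Pool.Agent.H84

universe v

variable {E : Type v} [NormedAddCommGroup E] [InnerProductSpace ℝ E]
    [FiniteDimensional ℝ E] [MeasurableSpace E] [BorelSpace E]

namespace P6

variable (S : Submodule ℝ E)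

omit [FiniteDimensional ℝ E] [MeasurableSpace E] [BorelSpace E] in
/-- A vector representing a functional on a subspace. -/
theorem exists_rep [FiniteDimensional ℝ E] (ℓ : E →L[ℝ] ℝ) : ∃ s : S, ℓ (s : E) = ‖ℓ.comp S.subtypeL‖ ^ 2 ∧
    ‖s‖ = ‖ℓ.comp S.subtypeL‖ := by
  set s := (InnerProductSpace.toDual ℝ S).symm (ℓ.comp S.subtypeL) with hs
  have h1 : ‖s‖ = ‖ℓ.comp S.subtypeL‖ := LinearIsometryEquiv.norm_map _ _
  refine ⟨s, ?_, h1⟩
  have h2 : inner ℝ s s = (ℓ.comp S.subtypeL) s := InnerProductSpace.toDual_symm_apply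
  rw [← h1, ← real_inner_self_eq_norm_sq, h2]
  rfl

omit [MeasurableSpace E] [BorelSpace E] in
theorem norm_split (ℓ : E →L[ℝ] ℝ) :
    ‖ℓ.comp S.subtypeL‖ ^ 2 + ‖ℓ.comp Sᗮ.subtypeL‖ ^ 2 ≤ ‖ℓ‖ ^ 2 := by
  obtain ⟨s, hs1, hs2⟩ := exists_rep S ℓ
  obtain ⟨w, hw1, hw2⟩ := exists_rep Sᗮ ℓ
  set a := ‖ℓ.comp S.subtypeL‖ with ha
  set b := ‖ℓ.comp Sᗮ.subtypeL‖ with hb
  have h1 : ‖(s : E) + (w : E)‖ ^ 2 = a ^ 2 + b ^ 2 := by
    have h := norm_add_sq_eq_norm_sq_add_norm_sq_of_inner_eq_zero (s : E) (w : E)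
      ((Submodule.mem_orthogonal _ _).1 w.2 s s.2)
    rw [Submodule.coe_norm] at hs2 hw2
    rw [hs2, hw2] at h
    nlinarith [h]
  have h2 : ℓ ((s : E) + (w : E)) = a ^ 2 + b ^ 2 := by
    rw [map_add, hs1, hw1]
  have h3 : a ^ 2 + b ^ 2 ≤ ‖ℓ‖ * ‖(s : E) + (w : E)‖ := by
    rw [← h2]
    exact (le_abs_self _).trans (ℓ.le_opNorm _)
  by_contra hcon
  push Not at hcon
  set c := ‖(s : E) + (w : E)‖ with hc
  have h4 : 0 ≤ c := norm_nonneg _
  have h5 : 0 ≤ ‖ℓ‖ := norm_nonneg _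
  rw [← h1] at h3 hcon
  have h6 : ‖ℓ‖ < c := lt_of_pow_lt_pow_left₀ 2 h4 hcon
  have h7 : 0 < c := lt_of_le_of_lt h5 h6
  nlinarith [mul_lt_mul_of_pos_right h6 h7]

variable {U : E → ℝ} {t C : ℝ}

theorem cav_cont (hU : Pot U t C) {F : E → ℝ} (hF : Continuous F) (hg : Gr F) :
    Continuous (cav S U F) := by
  have h1 := cont_pint S hU hF hg
  have h2 := cont_pint S hU (F := fun _ => 1) continuous_const gr_one
  exact h1.div h2 fun z => (rho_pos S hU z).ne'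

theorem pint_zero {F : E → ℝ} {z : Sᗮ} (h : ∀ s : S, F ((s : E) + (z : E)) = 0) :
    pint S U F z = 0 := by
  unfold pint
  simp [h]

theorem cav_hcs {F : E → ℝ} (hc : HasCompactSupport F) : HasCompactSupport (cav S U F) := by
  have hK : IsCompact (tsupport F) := hc
  have h1 : IsCompact ((fun x => Sᗮ.orthogonalProjectionOnto x) '' tsupport F) :=
    hK.image (Sᗮ.orthogonalProjectionOnto).continuous
  refine HasCompactSupport.intro h1 fun z hz => ?_
  unfold cav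
  rw [pint_zero, zero_div]
  intro s
  by_contra hne
  apply hz
  refine ⟨(s : E) + (z : E), subset_tsupport _ hne, ?_⟩
  simp only [map_add]
  rw [Submodule.orthogonalProjectionOnto_mem_subspace_eq_self,
    Submodule.orthogonalProjectionOnto_eq_zero_iff.2, zero_add]
  exact Submodule.le_orthogonal_orthogonal S s.2

theorem int_nsec' (hU : Pot U t C) (z : Sᗮ) {F : E → ℝ} (hF : Continuous F)
    (hc : HasCompactSupport F) :
    Integrable (fun x : S => F ((x : E) + (z : E))) (mu (nsec S U z)) := by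
  have h1 : Continuous (fun x : S => F ((x : E) + (z : E))) := by fun_prop
  have h2 : HasCompactSupport (fun x : S => F ((x : E) + (z : E))) := G2aux.hcs_shift S _ hc
  have h0 := prob_nsec S hU z
  exact h1.integrable_of_hasCompactSupport h2

theorem cav_mono (hU : Pot U t C) (z : Sᗮ) {F G : E → ℝ} (hF : Continuous F)
    (hFc : HasCompactSupport F) (hG : Continuous G) (hGc : HasCompactSupport G)
    (h : ∀ x, F x ≤ G x) : cav S U F z ≤ cav S U G z := by
  rw [← int_nsec S hU z, ← int_nsec S hU z]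
  exact integral_mono (int_nsec' S hU z hF hFc) (int_nsec' S hU z hG hGc) fun x => h _

theorem cav_nonneg (hU : Pot U t C) (z : Sᗮ) {F : E → ℝ} (h : ∀ x, 0 ≤ F x) :
    0 ≤ cav S U F z := by
  rw [← int_nsec S hU z]
  exact integral_nonneg fun x => h _

/-! ### The vector part -/

section vec

variable {ι : Type*} [Fintype ι] (b : OrthonormalBasis ι ℝ Sᗮ)

/-- The average of the derivatives along the orthogonal complement. -/
noncomputable def pp (U f : E → ℝ) (z : Sᗮ) : Sᗮ →L[ℝ] ℝ :=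
  ∑ i, cav S U (D ((b i : Sᗮ) : E) f) z • innerSL ℝ (b i)

theorem pp_apply (hU : Pot U t C) {f : E → ℝ} (hf : ContDiff ℝ 1 f) (hc : HasCompactSupport f)
    (z ν : Sᗮ) : pp S b U f z ν = cav S U (D (ν : E) f) z := by
  have h1 : ∀ x, D (ν : E) f x = ∑ i, inner ℝ (b i) ν * D ((b i : Sᗮ) : E) f x := by
    intro x
    have h2 : (ν : E) = ∑ i, inner ℝ (b i) ν • ((b i : Sᗮ) : E) := by
      conv_lhs => rw [← b.sum_repr' ν]
      simp
    unfold D
    conv_lhs => rw [h2]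
    simp
  rw [← int_nsec S hU z]
  simp_rw [h1]
  rw [integral_finsetSum]
  · unfold pp
    rw [ContinuousLinearMap.sum_apply]
    refine Finset.sum_congr rfl fun i _ => ?_
    rw [integral_const_mul, int_nsec S hU z (D ((b i : Sᗮ) : E) f)]
    simp [mul_comm]
  · intro i _
    apply Integrable.const_mul
    exact int_nsec' S hU z (contDiff_D (m := 0) hf (by norm_num) _).continuous (hcs_D hc _)

theorem pp_cont (hU : Pot U t C) {f : E → ℝ} (hf : ContDiff ℝ 1 f) (hc : HasCompactSupport f) :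
    Continuous (pp S b U f) := by
  unfold pp
  refine continuous_finsetSum _ fun i _ => ?_
  have h1 : Continuous (D ((b i : Sᗮ) : E) f) :=
    (contDiff_D (m := 0) hf (by norm_num) _).continuous
  have h2 : Continuous (cav S U (D ((b i : Sᗮ) : E) f)) :=
    cav_cont S hU h1 (gr_cs h1 (hcs_D hc _))
  exact h2.smul continuous_const

theorem pp_norm (hU : Pot U t C) {f : E → ℝ} (hf : ContDiff ℝ 1 f) (hc : HasCompactSupport f)
    (z : Sᗮ) : ‖pp S b U f z‖ ^ 2 ≤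
      cav S U (fun x => ‖(fderiv ℝ f x).comp Sᗮ.subtypeL‖ ^ 2) z := by
  have h0 := prob_nsec S hU z
  rw [nsq_clm b]
  have h1 : ∀ x, ‖(fderiv ℝ f x).comp Sᗮ.subtypeL‖ ^ 2 = ∑ i, (D ((b i : Sᗮ) : E) f x) ^ 2 := by
    intro x
    rw [nsq_clm b]
    rfl
  have hco : ∀ i, Continuous (D ((b i : Sᗮ) : E) f) := fun i =>
    (contDiff_D (m := 0) hf (by norm_num) _).continuous
  have hcs : ∀ i, HasCompactSupport (fun x => (D ((b i : Sᗮ) : E) f x) ^ 2) := fun i =>
    (hcs_D hc ((b i : Sᗮ) : E)).comp_left (g := fun x : ℝ => x ^ 2) (by norm_num)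
  rw [← int_nsec S hU z]
  simp_rw [h1]
  rw [integral_finsetSum]
  · refine Finset.sum_le_sum fun i _ => ?_
    rw [pp_apply S b hU hf hc, ← int_nsec S hU z]
    have h3 : Integrable (fun x : S => D ((b i : Sᗮ) : E) f ((x : E) + (z : E)))
      (mu (nsec S U z)) := int_nsec' S hU z (hco i) (hcs_D hc _)
    have h4 : Integrable (fun x : S => (D ((b i : Sᗮ) : E) f ((x : E) + (z : E))) ^ 2)
      (mu (nsec S U z)) :=
      int_nsec' S hU z (F := fun x => (D ((b i : Sᗮ) : E) f x) ^ 2) ((hco i).pow 2) (hcs i)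
    have h5 : 0 ≤ ∫ x : S, (D ((b i : Sᗮ) : E) f ((x : E) + (z : E)) -
        ∫ y : S, D ((b i : Sᗮ) : E) f ((y : E) + (z : E)) ∂(mu (nsec S U z))) ^ 2
          ∂(mu (nsec S U z)) := integral_nonneg fun x => sq_nonneg _
    set c := ∫ y : S, D ((b i : Sᗮ) : E) f ((y : E) + (z : E)) ∂(mu (nsec S U z)) with hcdef
    have h6 : ∫ x : S, (D ((b i : Sᗮ) : E) f ((x : E) + (z : E)) - c) ^ 2 ∂(mu (nsec S U z)) =
        (∫ x : S, (D ((b i : Sᗮ) : E) f ((x : E) + (z : E))) ^ 2 ∂(mu (nsec S U z))) - c ^ 2 := by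
      have h7 : (fun x : S => (D ((b i : Sᗮ) : E) f ((x : E) + (z : E)) - c) ^ 2) =
          fun x : S => ((D ((b i : Sᗮ) : E) f ((x : E) + (z : E))) ^ 2 -
            2 * c * D ((b i : Sᗮ) : E) f ((x : E) + (z : E))) + c ^ 2 := by
        ext x
        ring
      have h8 : Integrable (fun x : S => (D ((b i : Sᗮ) : E) f ((x : E) + (z : E))) ^ 2 -
            2 * c * D ((b i : Sᗮ) : E) f ((x : E) + (z : E))) (mu (nsec S U z)) :=
        h4.sub (h3.const_mul (2 * c))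
      rw [h7, integral_add h8 (integrable_const _), integral_sub h4 (h3.const_mul (2 * c)),
        integral_const_mul, ← hcdef]
      simp
      ring
    rw [h6] at h5
    exact sub_nonneg.1 h5
  · intro i _
    exact int_nsec' S hU z (F := fun x => (D ((b i : Sᗮ) : E) f x) ^ 2) ((hco i).pow 2) (hcs i)

end vec

theorem gpc_mg {W : Sᗮ → ℝ} {τ C' : ℝ} (hW : Pot W τ C') : GPC (mu W) (1 / τ) := by
  refine gpc_of_coer (stdOrthonormalBasis ℝ Sᗮ) hW hW.pos fun u hu => ?_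
  have h1 := bochner (stdOrthonormalBasis ℝ Sᗮ) (q := fun _ => τ) hW.smooth continuous_const
    hW.hess (hu.1.of_le (by norm_cast)) hu.2
  rw [integral_const_mul] at h1
  have h2 : 0 ≤ ∫ x, (∑ i, ‖fderiv ℝ (D (stdOrthonormalBasis ℝ Sᗮ i) u) x‖ ^ 2) ∂(mu W) :=
    integral_nonneg fun x => Finset.sum_nonneg fun i _ => sq_nonneg _
  exact (le_add_of_nonneg_left h2).trans h1

theorem final_real {M If2 If Ih2 IS IT Ip κ τ I : ℝ} (hM : 0 < M) (hκ : 0 ≤ κ) (hτ : 0 < τ)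
    (h1 : If2 - Ih2 ≤ κ * IS)
    (h2 : M⁻¹ * Ih2 - (M⁻¹ * If) ^ 2 ≤ 2 * (1 / τ) * (M⁻¹ * Ip) + 2 * (M⁻¹ * (κ * IS)))
    (h3 : Ip ≤ IT) (hIS : 0 ≤ IS) (hIT : 0 ≤ IT) (h4 : IS + IT ≤ I) :
    M * If2 - If ^ 2 ≤ (3 * κ + 2 / τ) * (M * I) := by
  have h5 := mul_le_mul_of_nonneg_left h2 (sq_nonneg M)
  have h6 : M ^ 2 * (M⁻¹ * Ih2 - (M⁻¹ * If) ^ 2) = M * Ih2 - If ^ 2 := by
    field_simp
  have h7 : M ^ 2 * (2 * (1 / τ) * (M⁻¹ * Ip) + 2 * (M⁻¹ * (κ * IS))) =
      M * ((2 / τ) * Ip + 2 * (κ * IS)) := by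
    field_simp
  rw [h6, h7] at h5
  have h8 : M * (If2 - Ih2) ≤ M * (κ * IS) := mul_le_mul_of_nonneg_left h1 hM.le
  have h9 : 0 < 2 / τ := by positivity
  have h10 : (2 / τ) * Ip ≤ (2 / τ) * IT := mul_le_mul_of_nonneg_left h3 h9.le
  have h11 : M * ((2 / τ) * Ip + 2 * (κ * IS)) ≤ M * ((2 / τ) * IT + 2 * (κ * IS)) :=
    mul_le_mul_of_nonneg_left (by linarith) hM.le
  have h12 : 3 * κ * IS + (2 / τ) * IT ≤ (3 * κ + 2 / τ) * I := by
    have h13 : 3 * κ * IS + (2 / τ) * IT ≤ (3 * κ + 2 / τ) * (IS + IT) := by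
      have := mul_nonneg hκ hIT
      have := mul_nonneg h9.le hIS
      nlinarith
    exact h13.trans (mul_le_mul_of_nonneg_left h4 (by positivity))
  have h14 := mul_le_mul_of_nonneg_left h12 hM.le
  calc M * If2 - If ^ 2 = M * (If2 - Ih2) + (M * Ih2 - If ^ 2) := by ring
    _ ≤ M * (κ * IS) + M * ((2 / τ) * IT + 2 * (κ * IS)) := add_le_add h8 (h5.trans h11)
    _ = M * (3 * κ * IS + (2 / τ) * IT) := by ring
    _ ≤ M * ((3 * κ + 2 / τ) * I) := h14
    _ = _ := by ring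

end P6

open P6

/-- Poincare inequality from the sections and the fixed space. -/
theorem thm_D (S : Submodule ℝ E) {U : E → ℝ} {t C τ C₂ κ : ℝ} (hU : Pot U t C)
    (hU2 : ∀ x, ‖fderiv ℝ (fderiv ℝ U) x‖ ≤ C₂) (hτ : 0 < τ)
    (hτU : ∀ x v : E, τ * ‖Sᗮ.orthogonalProjectionOnto v‖ ^ 2 ≤ fderiv ℝ (fderiv ℝ U) x v v)
    {G : Set (E ≃ₗᵢ[ℝ] E)} (hinv : ∀ g ∈ G, ∀ x, U (g x) = U x)
    (hGS : ∀ g ∈ G, ∀ z ∈ Sᗮ, g z = z) (hfix : ∀ p ∈ S, (∀ g ∈ G, g p = p) → p = 0)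
    (hκ : 0 ≤ κ) (hsec : ∀ z : Sᗮ, GPC (mu (sec S U z)) κ) :
    GPC (mu U) (3 * κ + 2 / τ) := by
  classical
  intro f hf hc
  obtain ⟨⟨C', hW⟩, hW1, hW2⟩ := mg_spec S hU hU2 hτ hτU
  have hWc : Continuous (mg S U) := hW.smooth.continuous
  have hfinW : IsFiniteMeasure (mu (mg S U)) := isFinite_mu hW
  have hMpos := mu_univ_pos hWc hfinW
  have hgW := gpc_mg S hW
  have hU2g : Gr (fun x => ‖fderiv ℝ (fderiv ℝ U) x‖) :=
    ⟨C₂, 0, fun x => by
      rw [zero_mul, Real.exp_zero, mul_one]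
      have h1 : 0 ≤ ‖fderiv ℝ (fderiv ℝ U) x‖ := ContinuousLinearMap.opNorm_nonneg _
      exact (abs_of_nonneg h1).le.trans (hU2 x)⟩
  obtain ⟨hh, hhc, hhd⟩ := cav_diff S hU hU2g hf hc
  -- functions
  have hdf : Continuous (fderiv ℝ f) := hf.continuous_fderiv (by norm_num)
  have hdfc : HasCompactSupport (fderiv ℝ f) := hc.fderiv (𝕜 := ℝ)
  have hNSc : Continuous (fun x => ‖(fderiv ℝ f x).comp S.subtypeL‖ ^ 2) :=
    (G2aux.continuous_nS S).comp hdf
  have hNTc : Continuous (fun x => ‖(fderiv ℝ f x).comp Sᗮ.subtypeL‖ ^ 2) :=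
    (G2aux.continuous_nS Sᗮ).comp hdf
  have hNSs : HasCompactSupport (fun x => ‖(fderiv ℝ f x).comp S.subtypeL‖ ^ 2) :=
    hdfc.comp_left (g := fun ℓ : E →L[ℝ] ℝ => ‖ℓ.comp S.subtypeL‖ ^ 2) (G2aux.nS_zero S)
  have hNTs : HasCompactSupport (fun x => ‖(fderiv ℝ f x).comp Sᗮ.subtypeL‖ ^ 2) :=
    hdfc.comp_left (g := fun ℓ : E →L[ℝ] ℝ => ‖ℓ.comp Sᗮ.subtypeL‖ ^ 2) (G2aux.nS_zero Sᗮ)
  have hDfc : Continuous (fun x => ‖fderiv ℝ f x‖ ^ 2) := hdf.norm.pow 2
  have hDfs : HasCompactSupport (fun x => ‖fderiv ℝ f x‖ ^ 2) :=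
    hdfc.comp_left (g := fun ℓ : E →L[ℝ] ℝ => ‖ℓ‖ ^ 2) (by simp)
  have hf2c : Continuous (fun x => f x ^ 2) := hf.continuous.pow 2
  have hf2s : HasCompactSupport (fun x => f x ^ 2) :=
    hc.comp_left (g := fun x : ℝ => x ^ 2) (by norm_num)
  -- integrals
  obtain ⟨e1, i1⟩ := int_mu_eq S hU hWc hf.continuous (gr_cs hf.continuous hc)
  obtain ⟨e2, i2⟩ := int_mu_eq S hU hWc hf2c (gr_cs hf2c hf2s)
  obtain ⟨e3, i3⟩ := int_mu_eq S hU hWc hNSc (gr_cs hNSc hNSs)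
  obtain ⟨e4, i4⟩ := int_mu_eq S hU hWc hNTc (gr_cs hNTc hNTs)
  obtain ⟨e5, i5⟩ := int_mu_eq S hU hWc (F := fun _ => 1) continuous_const gr_one
  have e6 : (mu U).real univ = (mu (mg S U)).real univ := by
    have h1 : ∀ z, cav S U (fun _ => 1) z = 1 := fun z => div_self (rho_pos S hU z).ne'
    simp only [h1] at e5
    simpa using e5
  set M := (mu (mg S U)).real univ with hMdef
  -- the normalised marginal
  set W' : Sᗮ → ℝ := fun z => mg S U z + Real.log M with hW'def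
  have hW' : Pot W' τ C' := pot_add_const hW _
  have hmuW' : mu W' = ENNReal.ofReal (M⁻¹) • mu (mg S U) := by
    rw [hW'def, mu_add_const _ hWc, Real.exp_neg, Real.exp_log hMpos]
  have hint : ∀ F : Sᗮ → ℝ, ∫ z, F z ∂(mu W') = M⁻¹ * ∫ z, F z ∂(mu (mg S U)) := by
    intro F
    rw [hmuW', integral_smul_measure, ENNReal.toReal_ofReal (inv_pos.2 hMpos).le, smul_eq_mul]
  have hprob : IsProbabilityMeasure (mu W') := by
    refine ⟨?_⟩
    have h1 : (mu W').real univ = 1 := by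
      rw [hmuW', measureReal_ennreal_smul_apply, ENNReal.toReal_ofReal (inv_pos.2 hMpos).le,
        ← hMdef]
      exact inv_mul_cancel₀ hMpos.ne'
    exact (ENNReal.toReal_eq_one_iff _).1 h1
  have hgW' : GPC (mu W') (1 / τ) := gpc_add_const hWc hgW _
  set b := stdOrthonormalBasis ℝ Sᗮ with hb
  have hdW' : fderiv ℝ W' = fderiv ℝ (mg S U) := by
    ext1 z
    rw [hW'def, fderiv_add_const]
  have hdh : Continuous (fderiv ℝ (cav S U f)) := hh.continuous_fderiv (by norm_num)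
  have hpc := pp_cont S b hU hf hc
  have key := marg_ineq (W := W') (h := cav S U f) hW' (one_div_pos.2 hτ).le hgW' hh hhc
    (p := pp S b U f) (r := fun z => fderiv ℝ (cav S U f) z - pp S b U f z) hpc
    (hdh.sub hpc) (fun z => by abel)
    (γ := fun z => κ * cav S U (fun x => ‖(fderiv ℝ f x).comp S.subtypeL‖ ^ 2) z)
    (continuous_const.mul (cav_cont S hU hNSc (gr_cs hNSc hNSs)))
    (fun z => mul_nonneg hκ (cav_nonneg S hU z fun x => sq_nonneg _))
    ((cav_hcs S hNSs).mul_left)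
    (by
      intro z ν
      have h1 := sec_cov' S hU hU2 hinv hGS hfix hκ (hsec z) hf hc ν
      rw [← hW2 z ν] at h1
      rw [hdW']
      have h2 : (fderiv ℝ (cav S U f) z - pp S b U f z) ν =
          -(cav S U (fun x => f x * D (ν : E) U x) z -
            cav S U f z * cav S U (D (ν : E) U) z) := by
        change fderiv ℝ (cav S U f) z ν - pp S b U f z ν = _
        rw [pp_apply S b hU hf hc]
        have h3 := hhd z ν
        change fderiv ℝ (cav S U f) z ν = _ at h3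
        rw [h3]
        ring
      rw [h2, neg_sq]
      exact h1)
  simp only [hint] at key
  rw [integral_const_mul] at key
  -- the sections
  have hcavf2 : Continuous (cav S U f) := hh.continuous
  have ih2 : Integrable (fun z => (cav S U f z) ^ 2) (mu (mg S U)) := by
    have h1 : Continuous (fun z => (cav S U f z) ^ 2) := hcavf2.pow 2
    exact h1.integrable_of_hasCompactSupport
      (hhc.comp_left (g := fun x : ℝ => x ^ 2) (by norm_num))
  have s1 : (∫ z, cav S U (fun x => f x ^ 2) z ∂(mu (mg S U))) -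
      ∫ z, (cav S U f z) ^ 2 ∂(mu (mg S U)) ≤
      κ * ∫ z, cav S U (fun x => ‖(fderiv ℝ f x).comp S.subtypeL‖ ^ 2) z ∂(mu (mg S U)) := by
    rw [← integral_sub i2 ih2, ← integral_const_mul]
    exact integral_mono (i2.sub ih2) (i3.const_mul κ) fun z => sec_var S hU (hsec z) hf hc
  have ip : Integrable (fun z => ‖pp S b U f z‖ ^ 2) (mu (mg S U)) := by
    have hpn0 : Continuous (fun z => ‖pp S b U f z‖) :=
      (continuous_norm (E := Sᗮ →L[ℝ] ℝ)).comp hpc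
    have hpn : Continuous (fun z => ‖pp S b U f z‖ ^ 2) := hpn0.pow 2
    refine i4.mono' hpn.aestronglyMeasurable (Eventually.of_forall fun z => ?_)
    rw [Real.norm_eq_abs, abs_of_nonneg (sq_nonneg _)]
    exact pp_norm S b hU hf hc z
  have s2 : ∫ z, ‖pp S b U f z‖ ^ 2 ∂(mu (mg S U)) ≤
      ∫ z, cav S U (fun x => ‖(fderiv ℝ f x).comp Sᗮ.subtypeL‖ ^ 2) z ∂(mu (mg S U)) :=
    integral_mono ip i4 fun z => pp_norm S b hU hf hc z
  have iNS : Integrable (fun x => ‖(fderiv ℝ f x).comp S.subtypeL‖ ^ 2) (mu U) := by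
    obtain ⟨A, B, hAB⟩ := gr_cs hNSc hNSs
    exact integrable_exp_growth hU hNSc hAB
  have iNT : Integrable (fun x => ‖(fderiv ℝ f x).comp Sᗮ.subtypeL‖ ^ 2) (mu U) := by
    obtain ⟨A, B, hAB⟩ := gr_cs hNTc hNTs
    exact integrable_exp_growth hU hNTc hAB
  have iDf : Integrable (fun x => ‖fderiv ℝ f x‖ ^ 2) (mu U) := by
    obtain ⟨A, B, hAB⟩ := gr_cs hDfc hDfs
    exact integrable_exp_growth hU hDfc hAB
  have s3 : (∫ x, ‖(fderiv ℝ f x).comp S.subtypeL‖ ^ 2 ∂(mu U)) +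
      ∫ x, ‖(fderiv ℝ f x).comp Sᗮ.subtypeL‖ ^ 2 ∂(mu U) ≤ ∫ x, ‖fderiv ℝ f x‖ ^ 2 ∂(mu U) := by
    rw [← integral_add iNS iNT]
    exact integral_mono (iNS.add iNT) iDf fun x => norm_split S _
  rw [e6, e1, e2]
  rw [← e3] at s1 key
  rw [← e4] at s2
  exact final_real hMpos hκ hτ s1 key s2 (integral_nonneg fun x => sq_nonneg _)
    (integral_nonneg fun x => sq_nonneg _) s3

end Pool.Agent.H84.Sym
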