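import Pool.Agent.H31.Sym.Q7b
import Pool.Agent.H84.Sym.Q6
import Pool.Agent.H90.Sym.P7

/-!
# SYM2: the final assembly
-/

set_option autoImplicit false

open MeasureTheory
open scoped ENNReal NNReal

namespace Pool.Agent.H84.Sym

open Pool.Agent.H84

theorem final2 {n m d : ℕ} (hm1 : 1 ≤ m) {Ω : Set (EuclideanSpace ℝ (Fin (n + 1)))}
    (hΩo : IsOpen Ω) (hΩc : Convex ℝ Ω) (hΩb : Bornology.IsBounded Ω) (hne : Ω.Nonempty)
    (hsymm : ∀ x ∈ Ω, -x ∈ Ω)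
    {G : Set (EuclideanSpace ℝ (Fin (n + 1)) →ₗ[ℝ] EuclideanSpace ℝ (Fin (n + 1)))}
    (hinv : ∀ g ∈ G, g '' Ω = Ω)
    (hrk : ∀ g ∈ G, Module.finrank ℝ (LinearMap.range (g - LinearMap.id)) ≤ m)
    (hd : Module.finrank ℝ (FixG G) ≤ d) :
    (∃ a : EuclideanSpace ℝ (Fin (n + 1)), a ≠ 0 ∧ ∀ b : EuclideanSpace ℝ (Fin (n + 1)),
      ‖a‖ ^ 2 * ∫ x in Ω, (inner ℝ b x) ^ 2 ≤ ‖b‖ ^ 2 * ∫ x in Ω, (inner ℝ a x) ^ 2) ∧
    ∀ a : EuclideanSpace ℝ (Fin (n + 1)), a ≠ 0 →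
      (∀ b : EuclideanSpace ℝ (Fin (n + 1)),
        ‖a‖ ^ 2 * ∫ x in Ω, (inner ℝ b x) ^ 2 ≤ ‖b‖ ^ 2 * ∫ x in Ω, (inner ℝ a x) ^ 2) →
      ∀ E : Set (EuclideanSpace ℝ (Fin (n + 1))),
        MeasurableSet E → E ⊆ Ω → volume E = volume Ω / 2 →
          μH[(n : ℝ)] {x | x ∈ Ω ∧ inner ℝ a x = (0 : ℝ)}
            ≤ ((9227200000 * m * (d + 1) : ℝ≥0) : ℝ≥0∞) * μH[(n : ℝ)] (Ω ∩ frontier E) := by
  have h0 : (0 : EuclideanSpace ℝ (Fin (n + 1))) ∈ Ω := by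
    obtain ⟨x, hx⟩ := hne
    have := hΩc hx (hsymm x hx) (a := 1/2) (b := 1/2) (by norm_num) (by norm_num) (by norm_num)
    simpa using this
  obtain ⟨a0, ha0, s, hs, hsa, hcov⟩ := exists_max_dir hΩo h0 hΩb
  have hV : 0 ≤ volume.real Ω := measureReal_nonneg
  refine ⟨⟨a0, fun h => by rw [h, norm_zero] at ha0; exact zero_ne_one ha0, fun b => ?_⟩, ?_⟩
  · rw [hsa, ha0, one_pow, one_mul]
    calc _ ≤ _ := hcov b
      _ = _ := by ring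
  intro a ha hmax E hE hEΩ hEv
  have hna : 0 < ‖a‖ := norm_pos_iff.2 ha
  obtain ⟨Ω', hsub, hΩ'c, hΩ'm, hvol, hPC⟩ := lin_body_trunc_of_pot
    (fun S => pot_main2 S) hΩo hΩc hΩb hsymm hne hinv hm1 hrk hd hs hcov
  have hm0 : (0:ℝ) < m := by exact_mod_cast hm1
  have hscale : ∀ x : EuclideanSpace ℝ (Fin (n + 1)),
      inner ℝ (‖a‖⁻¹ • a) x = ‖a‖⁻¹ * inner ℝ a x := fun x => by
    rw [real_inner_smul_left]
  have hvar : ∫ x in Ω, (inner ℝ (‖a‖⁻¹ • a) x) ^ 2 = s ^ 2 * volume.real Ω := by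
    have e1 : ∫ x in Ω, (inner ℝ (‖a‖⁻¹ • a) x) ^ 2 =
        (‖a‖⁻¹) ^ 2 * ∫ x in Ω, (inner ℝ a x) ^ 2 := by
      rw [← integral_const_mul]
      congr 1
      ext x
      rw [hscale, mul_pow]
    have e2 : ∫ x in Ω, (inner ℝ a x) ^ 2 = ‖a‖ ^ 2 * (s ^ 2 * volume.real Ω) := by
      apply le_antisymm
      · calc _ ≤ _ := hcov a
          _ = _ := by ring
      · have := hmax a0
        rw [hsa, ha0, one_pow, one_mul] at this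
        exact this
    rw [e1, e2]
    field_simp
  have hn1 : ‖(‖a‖⁻¹ • a)‖ = 1 := by
    rw [norm_smul, norm_inv, norm_norm, inv_mul_cancel₀ hna.ne']
  have hset : {x | x ∈ Ω ∧ inner ℝ a x = (0 : ℝ)} =
      {x | x ∈ Ω ∧ inner ℝ (‖a‖⁻¹ • a) x = (0 : ℝ)} := by
    ext x
    simp only [Set.mem_setOf_eq, hscale, mul_eq_zero, inv_eq_zero, hna.ne', false_or]
  have hfin : Module.finrank ℝ (EuclideanSpace ℝ (Fin (n + 1))) = n + 1 := by simp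
  have key := kls_reduce_tr hfin hΩo hΩc hΩb hsymm hne hn1 hs hvar
    (c := 1264000 * m * (d + 1)) (by positivity) hsub hΩ'c hΩ'm hvol hPC hE hEΩ hEv
  rw [hset]
  refine key.trans (le_of_eq ?_)
  congr 1
  rw [ENNReal.ofReal, ENNReal.coe_inj]
  apply NNReal.coe_injective
  rw [Real.coe_toNNReal _ (by positivity)]
  push_cast
  ring

end Pool.Agent.H84.Sym
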