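import Pool.Agent.H84.Sym.P6a
import Pool.Agent.H20.Sym.P3b
import Pool.Agent.H92.Sym.P4a
import Pool.Agent.H51.Sym.P4b
import Pool.Agent.H94.Sym.P5

/-!
# SYM2, module P6 (part b): inequalities on the sections
-/

set_option autoImplicit false
set_option linter.unusedSectionVars false

open MeasureTheory Set Filter Topology
open scoped ContDiff

namespace Pool.Agent.H84.Sym

open Pool.Agent.H84

universe v

variable {E : Type v} [NormedAddCommGroup E] [InnerProductSpace ℝ E]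
    [FiniteDimensional ℝ E] [MeasurableSpace E] [BorelSpace E]

namespace P6

variable (S : Submodule ℝ E)

/-! ### Isometries fixing the orthogonal complement -/

omit [FiniteDimensional ℝ E] [MeasurableSpace E] [BorelSpace E] in
theorem map_S [S.HasOrthogonalProjection] {g : E ≃ₗᵢ[ℝ] E} (hg : ∀ z ∈ Sᗮ, g z = z) {s : E}
    (hs : s ∈ S) : g s ∈ S := by
  rw [← Submodule.orthogonal_orthogonal S, Submodule.mem_orthogonal]
  intro w hw
  have h1 : g w = w := hg w hw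
  rw [← h1, g.inner_map_map, real_inner_comm]
  exact (Submodule.mem_orthogonal _ _).1 hw s hs

/-- Restriction of an isometry. -/
noncomputable def rS (g : E ≃ₗᵢ[ℝ] E) (hg : ∀ z ∈ Sᗮ, g z = z) : S ≃ₗᵢ[ℝ] S :=
  LinearIsometry.toLinearIsometryEquiv
    { toLinearMap := (g.toLinearEquiv : E →ₗ[ℝ] E).restrict (p := S) (q := S)
        (fun _ hs => map_S S hg hs)
      norm_map' := fun s => g.norm_map s } rfl

omit [MeasurableSpace E] [BorelSpace E] in
theorem rS_apply (g : E ≃ₗᵢ[ℝ] E) (hg : ∀ z ∈ Sᗮ, g z = z) (s : S) :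
    ((rS S g hg s : S) : E) = g s := rfl

/-- The restricted isometries. -/
def GS (G : Set (E ≃ₗᵢ[ℝ] E)) : Set (S ≃ₗᵢ[ℝ] S) :=
  {g' | ∃ g ∈ G, (∀ z ∈ Sᗮ, g z = z) ∧ ∀ s : S, ((g' s : S) : E) = g (s : E)}

omit [FiniteDimensional ℝ E] [MeasurableSpace E] [BorelSpace E] in
theorem shift_eq {g : E ≃ₗᵢ[ℝ] E} (hg : ∀ z ∈ Sᗮ, g z = z) {g' : S ≃ₗᵢ[ℝ] S}
    (h' : ∀ s : S, ((g' s : S) : E) = g (s : E)) (z : Sᗮ) (s : S) :
    ((g' s : S) : E) + (z : E) = g ((s : E) + (z : E)) := by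
  rw [h', map_add, hg z z.2]

omit [MeasurableSpace E] [BorelSpace E] in
theorem hfix_S {G : Set (E ≃ₗᵢ[ℝ] E)} (hGS : ∀ g ∈ G, ∀ z ∈ Sᗮ, g z = z)
    (hfix : ∀ p ∈ S, (∀ g ∈ G, g p = p) → p = 0) (p : S) (hp : ∀ g' ∈ GS S G, g' p = p) :
    p = 0 := by
  have h1 : (p : E) = 0 := by
    refine hfix p p.2 fun g hg => ?_
    have h2 := hp (rS S g (hGS g hg)) ⟨g, hg, hGS g hg, fun s => rfl⟩
    rw [← rS_apply S g (hGS g hg) p, h2]
  exact_mod_cast h1

omit [FiniteDimensional ℝ E] [MeasurableSpace E] [BorelSpace E] in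
theorem dU_shift {U : E → ℝ} (hd : Differentiable ℝ U) {g : E ≃ₗᵢ[ℝ] E}
    (hinv : ∀ x, U (g x) = U x) {ν : E} (hν : g ν = ν) (x : E) : D ν U (g x) = D ν U x := by
  have h1 : (fun x => U (g x)) = U := funext hinv
  have h2 : HasFDerivAt (fun x => U (g x)) ((fderiv ℝ U (g x)).comp (g : E →L[ℝ] E)) x :=
    (hd (g x)).hasFDerivAt.comp x g.hasFDerivAt
  rw [h1] at h2
  unfold D
  rw [h2.fderiv]
  change _ = fderiv ℝ U (g x) (g ν)
  rw [hν]

variable {U : E → ℝ} {t C : ℝ}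

/-! ### The inequality on the sections -/

theorem sec_var (hU : Pot U t C) {κ : ℝ} {z : Sᗮ} (hsec : GPC (mu (sec S U z)) κ) {f : E → ℝ}
    (hf : ContDiff ℝ 1 f) (hc : HasCompactSupport f) :
    cav S U (fun x => f x ^ 2) z - (cav S U f z) ^ 2 ≤
      κ * cav S U (fun x => ‖(fderiv ℝ f x).comp S.subtypeL‖ ^ 2) z := by
  have h0 := prob_nsec S hU z
  have h1 : GPC (mu (nsec S U z)) κ :=
    gpc_add_const (sec_pot S hU (z : E)).smooth.continuous hsec _
  have h2 := h1 (fun s : S => f ((s : E) + (z : E))) (G2aux.contDiff_shift S _ hf)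
    (G2aux.hcs_shift S _ hc)
  have h3 : ∀ s : S, fderiv ℝ (fun s : S => f ((s : E) + (z : E))) s =
      (fderiv ℝ f ((s : E) + (z : E))).comp S.subtypeL := fun s =>
    (G2aux.hasFDerivAt_shift S (z : E) (hf.differentiable (by norm_num) _)).fderiv
  simp only [h3] at h2
  rw [int_nsec S hU z f] at h2
  rw [int_nsec S hU z (fun x => f x ^ 2)] at h2
  rw [int_nsec S hU z (fun x => ‖(fderiv ℝ f x).comp S.subtypeL‖ ^ 2)] at h2
  have h4 : (mu (nsec S U z)).real univ = 1 := by simp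
  rw [h4, one_mul, one_mul] at h2
  exact h2

omit [FiniteDimensional ℝ E] [MeasurableSpace E] [BorelSpace E] in
theorem gr_shift_aux {F : E → ℝ} {c : ℝ} (hc : 0 ≤ c) (hF : ∀ x, |F x| ≤ c * (1 + ‖x‖)) (z : E) :
    Gr (fun s : S => F ((s : E) + z)) := by
  refine ⟨c * (1 + ‖z‖), 1, fun s => ?_⟩
  have h1 : ‖(s : E) + z‖ ≤ ‖s‖ + ‖z‖ := norm_add_le _ _
  have h2 : 1 + ‖s‖ ≤ Real.exp (1 * ‖s‖) := by
    rw [one_mul, add_comm]
    exact Real.add_one_le_exp _
  have h3 : 0 ≤ ‖s‖ := norm_nonneg _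
  have h4 : 0 ≤ ‖z‖ := norm_nonneg _
  calc |F ((s : E) + z)| ≤ c * (1 + ‖(s : E) + z‖) := hF _
    _ ≤ c * ((1 + ‖z‖) * (1 + ‖s‖)) := by
        apply mul_le_mul_of_nonneg_left _ hc
        nlinarith [mul_nonneg h3 h4]
    _ ≤ c * ((1 + ‖z‖) * Real.exp (1 * ‖s‖)) := by
        apply mul_le_mul_of_nonneg_left _ hc
        exact mul_le_mul_of_nonneg_left h2 (by positivity)
    _ = _ := by ring

theorem pot_C_nonneg (hU : Pot U t C) : 0 ≤ C := by
  have h1 := hU.grad 0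
  rw [norm_zero, add_zero, mul_one] at h1
  exact (norm_nonneg _).trans h1

theorem gr_dU (hU : Pot U t C) (ν : E) (x : E) : |D ν U x| ≤ C * ‖ν‖ * (1 + ‖x‖) := by
  have h1 : |D ν U x| ≤ ‖fderiv ℝ U x‖ * ‖ν‖ := by
    have := (fderiv ℝ U x).le_opNorm ν
    rwa [Real.norm_eq_abs] at this
  have h2 := mul_le_mul_of_nonneg_right (hU.grad x) (norm_nonneg ν)
  calc _ ≤ _ := h1
    _ ≤ _ := h2
    _ = _ := by ring

theorem sec_cov' (hU : Pot U t C) {C₂ : ℝ} (hU2 : ∀ x, ‖fderiv ℝ (fderiv ℝ U) x‖ ≤ C₂)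
    {G : Set (E ≃ₗᵢ[ℝ] E)} (hinv : ∀ g ∈ G, ∀ x, U (g x) = U x)
    (hGS : ∀ g ∈ G, ∀ z ∈ Sᗮ, g z = z) (hfix : ∀ p ∈ S, (∀ g ∈ G, g p = p) → p = 0) {κ : ℝ}
    (hκ : 0 ≤ κ) {z : Sᗮ} (hsec : GPC (mu (sec S U z)) κ) {f : E → ℝ}
    (hf : ContDiff ℝ 1 f) (hc : HasCompactSupport f) (ν : Sᗮ) :
    (cav S U (fun x => f x * D (ν : E) U x) z - cav S U f z * cav S U (D (ν : E) U) z) ^ 2 ≤
      κ * cav S U (fun x => ‖(fderiv ℝ f x).comp S.subtypeL‖ ^ 2) z *
        (cav S U (fun x => fderiv ℝ (fderiv ℝ U) x ν ν) z -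
          (cav S U (fun x => (D (ν : E) U x) ^ 2) z - (cav S U (D (ν : E) U) z) ^ 2)) := by
  have h0 := prob_nsec S hU z
  have hV := nsec_pot S hU z
  have hUd : Differentiable ℝ U := hU.smooth.differentiable (by norm_num)
  have hU1 : ContDiff ℝ 1 (fderiv ℝ U) := hU.smooth.fderiv_right (m := 1) (by norm_num)
  have hU1d : Differentiable ℝ (fderiv ℝ U) := hU1.differentiable (by norm_num)
  have h1 : GPC (mu (nsec S U z)) κ :=
    gpc_add_const (sec_pot S hU (z : E)).smooth.continuous hsec _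
  -- the functions
  have hk : ContDiff ℝ 1 (fun s : S => D (ν : E) U ((s : E) + (z : E))) :=
    G2aux.contDiff_shift S (z : E) (contDiff_D (m := 1) (n := 2) hU.smooth (by norm_num) (ν : E))
  have hC := pot_C_nonneg hU
  have hkg : Gr (fun s : S => D (ν : E) U ((s : E) + (z : E))) :=
    gr_shift_aux S (c := C * ‖(ν : E)‖) (by positivity) (fun x => gr_dU hU (ν : E) x) (z : E)
  have hU2c : Continuous (fderiv ℝ (fderiv ℝ U)) := hU1.continuous_fderiv (by norm_num)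
  have hq : Continuous (fun s : S => fderiv ℝ (fderiv ℝ U) ((s : E) + (z : E)) ν ν) := by
    have h2 : Continuous (fun s : S => (s : E) + (z : E)) := by fun_prop
    exact ((hU2c.comp h2).clm_apply continuous_const).clm_apply continuous_const
  have hqg : Gr (fun s : S => fderiv ℝ (fderiv ℝ U) ((s : E) + (z : E)) ν ν) := by
    refine ⟨C₂ * ‖(ν : E)‖ * ‖(ν : E)‖, 0, fun s => ?_⟩
    rw [zero_mul, Real.exp_zero, mul_one]
    have h3 := (fderiv ℝ (fderiv ℝ U) ((s : E) + (z : E))).le_opNorm₂ (ν : E) (ν : E)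
    rw [Real.norm_eq_abs] at h3
    refine h3.trans ?_
    gcongr
    exact hU2 _
  -- derivatives on the section
  have hfd : ∀ s : S, fderiv ℝ (fun s : S => f ((s : E) + (z : E))) s =
      (fderiv ℝ f ((s : E) + (z : E))).comp S.subtypeL := fun s =>
    (G2aux.hasFDerivAt_shift S (z : E) (hf.differentiable (by norm_num) _)).fderiv
  have hkd : ∀ s η : S, fderiv ℝ (fun s : S => D (ν : E) U ((s : E) + (z : E))) s η =
      fderiv ℝ (fderiv ℝ U) ((s : E) + (z : E)) η ν := by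
    intro s η
    have h4 : Differentiable ℝ (D (ν : E) U) :=
      (contDiff_D (m := 1) (n := 2) hU.smooth (by norm_num) (ν : E)).differentiable (by norm_num)
    rw [(G2aux.hasFDerivAt_shift S (z : E) (h4 _)).fderiv]
    exact D_D hU.smooth (η : E) (ν : E) ((s : E) + (z : E))
  have hVd : ∀ s η : S, fderiv ℝ (fderiv ℝ (nsec S U z)) s η η =
      fderiv ℝ (fderiv ℝ U) ((s : E) + (z : E)) η η := by
    intro s η
    have e1 : fderiv ℝ (nsec S U z) = fun s : S =>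
        (fderiv ℝ U ((s : E) + (z : E))).comp S.subtypeL := by
      ext1 s
      have e0 : nsec S U z = fun x : S => sec S U z x + Real.log (pint S U (fun _ => 1) z) := rfl
      rw [e0, fderiv_add_const]
      exact G2aux.fderiv_VV hU S (z : E) s
    have e2 : HasFDerivAt (fun s : S => fderiv ℝ U ((s : E) + (z : E)))
        ((fderiv ℝ (fderiv ℝ U) ((s : E) + (z : E))).comp S.subtypeL) s :=
      G2aux.hasFDerivAt_shift S (z : E) (hU1d _)
    have e3 : HasFDerivAt (fderiv ℝ (nsec S U z))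
        (((ContinuousLinearMap.compL ℝ S E ℝ).flip S.subtypeL).comp
          ((fderiv ℝ (fderiv ℝ U) ((s : E) + (z : E))).comp S.subtypeL)) s := by
      rw [e1]
      exact ((ContinuousLinearMap.compL ℝ S E ℝ).flip S.subtypeL).hasFDerivAt.comp s e2
    rw [e3.fderiv]
    rfl
  have hsymm : ∀ x a b, fderiv ℝ (fderiv ℝ U) x a b = fderiv ℝ (fderiv ℝ U) x b a := by
    intro x a b
    exact (hU.smooth.contDiffAt.isSymmSndFDerivAt (by simp)).eq a b
  have hj : ∀ s η : S, 0 ≤ fderiv ℝ (fderiv ℝ U) ((s : E) + (z : E)) ν ν -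
      2 * fderiv ℝ (fun s : S => D (ν : E) U ((s : E) + (z : E))) s η +
      fderiv ℝ (fderiv ℝ (nsec S U z)) s η η := by
    intro s η
    rw [hkd, hVd]
    have h5 := hU.hess ((s : E) + (z : E)) ((ν : E) - (η : E))
    have h6 : 0 ≤ t * ‖(ν : E) - (η : E)‖ ^ 2 := mul_nonneg hU.pos.le (sq_nonneg _)
    have h7 : fderiv ℝ (fderiv ℝ U) ((s : E) + (z : E)) ((ν : E) - (η : E)) ((ν : E) - (η : E)) =
        fderiv ℝ (fderiv ℝ U) ((s : E) + (z : E)) ν ν -
        2 * fderiv ℝ (fderiv ℝ U) ((s : E) + (z : E)) η ν +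
        fderiv ℝ (fderiv ℝ U) ((s : E) + (z : E)) η η := by
      simp only [map_sub, ContinuousLinearMap.sub_apply]
      rw [hsymm _ (ν : E) (η : E)]
      ring
    rw [← h7]
    exact h6.trans h5
  -- invariance
  have hi1 : ∀ g' ∈ GS S G, ∀ s, nsec S U z (g' s) = nsec S U z s := by
    rintro g' ⟨g, hg, hg1, hg2⟩ s
    unfold nsec sec
    rw [shift_eq S hg1 hg2, hinv g hg]
  have hi2 : ∀ g' ∈ GS S G, ∀ s : S, D (ν : E) U (((g' s : S) : E) + (z : E)) =
      D (ν : E) U ((s : E) + (z : E)) := by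
    rintro g' ⟨g, hg, hg1, hg2⟩ s
    rw [shift_eq S hg1 hg2, dU_shift hUd (hinv g hg) (hg1 ν ν.2)]
  have h8 := sec_cov (V := nsec S U z) (k := fun s : S => D (ν : E) U ((s : E) + (z : E)))
    (q := fun s : S => fderiv ℝ (fderiv ℝ U) ((s : E) + (z : E)) ν ν) hV hk hkg hq hqg hj hκ h1
    (G := GS S G) hi1 hi2 (hfix_S S hGS hfix) (f := fun s : S => f ((s : E) + (z : E)))
    (G2aux.contDiff_shift S _ hf) (G2aux.hcs_shift S _ hc)
  simp only [hfd] at h8
  rw [int_nsec S hU z f, int_nsec S hU z (fun x => f x * D (ν : E) U x),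
    int_nsec S hU z (D (ν : E) U), int_nsec S hU z (fun x => (D (ν : E) U x) ^ 2),
    int_nsec S hU z (fun x => ‖(fderiv ℝ f x).comp S.subtypeL‖ ^ 2),
    int_nsec S hU z (fun x => fderiv ℝ (fderiv ℝ U) x ν ν)] at h8
  exact h8

end P6

end Pool.Agent.H84.Sym
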